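import Pool.Agent.X244.Cover

/-!
# Short vectors of the lattice `{(f, g) : f ≡ g A mod m}`
-/

set_option autoImplicit false

namespace Pool.Agent.X244

/-- The height of the pair `(f, g)`. -/
def hgt (f g : ℤ) : ℕ := max f.natAbs g.natAbs

/-- `k` bounds the height of some nonzero pair with `f ≡ g A mod m`. -/
def ShortAt (m : ℕ) (A : ℤ) (k : ℕ) : Prop :=
  ∃ f g : ℤ, ¬ (f = 0 ∧ g = 0) ∧ (m : ℤ) ∣ g * A - f ∧ hgt f g ≤ k

/-- `k` bounds the height of some pair with `f ≡ g A mod m`, `g > 0` prime to `N`. -/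
def AdmAt (N m : ℕ) (A : ℤ) (k : ℕ) : Prop :=
  ∃ f g : ℤ, 0 < g ∧ IsCoprime g (N : ℤ) ∧ (m : ℤ) ∣ g * A - f ∧ hgt f g ≤ k

theorem admAt_exists (N m : ℕ) (A : ℤ) : ∃ k, AdmAt N m A k :=
  ⟨hgt A 1, A, 1, one_pos, isCoprime_one_left, by simp, le_rfl⟩

theorem shortAt_exists (m : ℕ) (A : ℤ) : ∃ k, ShortAt m A k :=
  ⟨hgt A 1, A, 1, by simp, by simp, le_rfl⟩

open Classical in
/-- The least height of a nonzero vector. -/
noncomputable def short (m : ℕ) (A : ℤ) : ℕ := Nat.find (shortAt_exists m A)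

open Classical in
/-- The least height of an admissible vector. -/
noncomputable def adm (N m : ℕ) (A : ℤ) : ℕ := Nat.find (admAt_exists N m A)

theorem short_spec (m : ℕ) (A : ℤ) : ShortAt m A (short m A) := by
  classical
  exact Nat.find_spec (shortAt_exists m A)

theorem adm_spec (N m : ℕ) (A : ℤ) : AdmAt N m A (adm N m A) := by
  classical
  exact Nat.find_spec (admAt_exists N m A)

theorem short_le {m : ℕ} {A : ℤ} {k : ℕ} (h : ShortAt m A k) : short m A ≤ k := by
  classical
  exact Nat.find_min' (shortAt_exists m A) h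

theorem adm_le {N m : ℕ} {A : ℤ} {k : ℕ} (h : AdmAt N m A k) : adm N m A ≤ k := by
  classical
  exact Nat.find_min' (admAt_exists N m A) h

theorem hgt_pos {f g : ℤ} (h : ¬ (f = 0 ∧ g = 0)) : 1 ≤ hgt f g := by
  unfold hgt
  by_contra hc
  apply h
  omega

theorem short_pos (m : ℕ) (A : ℤ) : 1 ≤ short m A := by
  obtain ⟨f, g, h, _, h2⟩ := short_spec m A
  exact (hgt_pos h).trans h2

theorem adm_pos (N m : ℕ) (A : ℤ) : 1 ≤ adm N m A := by
  obtain ⟨f, g, h, _, _, h2⟩ := adm_spec N m A
  exact (hgt_pos (f := f) (g := g) (by omega)).trans h2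

theorem short_sq_le (m : ℕ) (hm : 1 ≤ m) (A : ℤ) : short m A * short m A ≤ m := by
  have hq : 0 < Nat.sqrt m := Nat.sqrt_pos.2 hm
  obtain ⟨j, k, hk0, hkq, hjk⟩ := Real.exists_int_int_abs_mul_sub_le ((A : ℝ) / m) hq
  have hm0 : (0 : ℝ) < m := by exact_mod_cast hm
  have h1 : |((k * A - j * m : ℤ) : ℝ)| < ((Nat.sqrt m + 1 : ℕ) : ℝ) := by
    have h2 : ((k * A - j * m : ℤ) : ℝ) = m * ((k : ℝ) * ((A : ℝ) / m) - j) := by
      push_cast
      field_simp
    rw [h2, abs_mul, abs_of_pos hm0]
    have h3 : (m : ℝ) < ((Nat.sqrt m + 1 : ℕ) : ℝ) * ((Nat.sqrt m + 1 : ℕ) : ℝ) := by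
      exact_mod_cast Nat.lt_succ_sqrt m
    have h4 : (0 : ℝ) < ((Nat.sqrt m + 1 : ℕ) : ℝ) := by positivity
    calc (m : ℝ) * |(k : ℝ) * ((A : ℝ) / m) - j| ≤ m * (1 / ((Nat.sqrt m : ℝ) + 1)) := by gcongr
      _ = m / ((Nat.sqrt m + 1 : ℕ) : ℝ) := by push_cast; ring
      _ < ((Nat.sqrt m + 1 : ℕ) : ℝ) := by rwa [div_lt_iff₀ h4]
  have h5 : |k * A - j * m| < ((Nat.sqrt m + 1 : ℕ) : ℤ) := by exact_mod_cast h1
  have h6 : short m A ≤ Nat.sqrt m := by
    refine short_le ⟨k * A - j * m, k, by omega, ⟨j, by ring⟩, ?_⟩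
    unfold hgt
    have h7 := Int.natCast_natAbs (k * A - j * m)
    have h8 := Int.natCast_natAbs k
    rw [abs_of_pos hk0] at h8
    push_cast at h5
    refine max_le ?_ ?_ <;> omega
  calc short m A * short m A ≤ Nat.sqrt m * Nat.sqrt m := Nat.mul_le_mul h6 h6
    _ ≤ m := Nat.sqrt_le m

theorem card_adm_le (N m : ℕ) (hNm : ∀ g : ℤ, IsCoprime g (N : ℤ) → IsCoprime g (m : ℤ)) (k : ℕ) :
    ((Finset.range m).filter (fun A : ℕ => adm N m A ≤ k)).card ≤ 3 * k ^ 2 := by
  classical
  have hch : ∀ A : ℕ, ∃ p : ℤ × ℤ, adm N m A ≤ k →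
      (0 < p.2 ∧ IsCoprime p.2 (N : ℤ) ∧ (m : ℤ) ∣ p.2 * A - p.1 ∧ hgt p.1 p.2 ≤ k) := by
    intro A
    by_cases h : adm N m A ≤ k
    · obtain ⟨f, g, h1, h2, h3, h4⟩ := adm_spec N m A
      exact ⟨(f, g), fun _ => ⟨h1, h2, h3, h4.trans h⟩⟩
    · exact ⟨0, fun h' => absurd h' h⟩
  choose φ hφ using hch
  calc ((Finset.range m).filter (fun A : ℕ => adm N m A ≤ k)).card
      ≤ ((Finset.Icc (-(k : ℤ)) k) ×ˢ (Finset.Icc (1 : ℤ) k)).card := by
        refine Finset.card_le_card_of_injOn φ ?_ ?_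
        · intro A hA
          have hA' := Finset.mem_filter.1 (Finset.mem_coe.1 hA)
          obtain ⟨h1, _, _, h4⟩ := hφ A hA'.2
          unfold hgt at h4
          rw [Finset.coe_product, Set.mem_prod, Finset.mem_coe, Finset.mem_coe, Finset.mem_Icc,
            Finset.mem_Icc]
          omega
        · intro A hA B hB hAB
          have hA' := Finset.mem_filter.1 (Finset.mem_coe.1 hA)
          have hB' := Finset.mem_filter.1 (Finset.mem_coe.1 hB)
          obtain ⟨_, h2, h3, _⟩ := hφ A hA'.2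
          obtain ⟨_, _, h3', _⟩ := hφ B hB'.2
          rw [← hAB] at h3'
          have h4 : (m : ℤ) ∣ (φ A).2 * ((A : ℤ) - B) := by
            have := dvd_sub h3 h3'
            have e : (φ A).2 * (A : ℤ) - (φ A).1 - ((φ A).2 * (B : ℤ) - (φ A).1) =
                (φ A).2 * ((A : ℤ) - B) := by ring
            rwa [e] at this
          have h5 : (m : ℤ) ∣ (A : ℤ) - B := (hNm _ h2).symm.dvd_of_dvd_mul_left h4
          have h6 := Finset.mem_range.1 hA'.1
          have h7 := Finset.mem_range.1 hB'.1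
          have h8 : |(A : ℤ) - B| < m := by
            rw [abs_lt]; omega
          have := Int.eq_zero_of_abs_lt_dvd h5 h8
          omega
    _ = (2 * k + 1) * k := by
        rw [Finset.card_product, Int.card_Icc, Int.card_Icc]
        congr 1 <;> omega
    _ ≤ 3 * k ^ 2 := by
        rcases Nat.eq_zero_or_pos k with h | h
        · simp [h]
        · nlinarith

theorem card_interval_le (m g h k : ℕ) (hg : 1 ≤ g) :
    ((Finset.range m).filter (fun A : ℕ => |(g : ℤ) * A - m * h| ≤ k)).card ≤ 2 * k / g + 1 := by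
  classical
  set s := (Finset.range m).filter (fun A : ℕ => |(g : ℤ) * A - m * h| ≤ k) with hs
  rcases s.eq_empty_or_nonempty with h0 | h0
  · rw [h0]; simp
  · set a := s.min' h0 with ha
    have ham : a ∈ s := Finset.min'_mem s h0
    have hsub : s ⊆ Finset.Icc a (a + 2 * k / g) := by
      intro b hb
      have hab : a ≤ b := Finset.min'_le s b hb
      rw [Finset.mem_Icc]
      refine ⟨hab, ?_⟩
      have h1 := (abs_le.1 (Finset.mem_filter.1 ham).2).1
      have h2 := (abs_le.1 (Finset.mem_filter.1 hb).2).2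
      have h3 : (g : ℤ) * ((b : ℤ) - a) ≤ 2 * k := by linarith
      have h4 : (b - a) * g ≤ 2 * k := by
        zify [hab]
        linarith
      have h5 : b - a ≤ 2 * k / g := (Nat.le_div_iff_mul_le (by omega)).2 h4
      omega
    calc s.card ≤ (Finset.Icc a (a + 2 * k / g)).card := Finset.card_le_card hsub
      _ = 2 * k / g + 1 := by
        rw [Nat.card_Icc]
        generalize 2 * k / g = q
        omega

theorem card_short_le (m : ℕ) (hm : 1 ≤ m) (k : ℕ) :
    ((Finset.range m).filter (fun A : ℕ => short m A ≤ k)).card ≤ 6 * k ^ 2 := by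
  classical
  rcases Nat.eq_zero_or_pos k with hk | hk
  · subst hk
    rw [Finset.card_eq_zero.2]
    · simp
    · rw [Finset.filter_eq_empty_iff]
      intro A _ h
      have := short_pos m A
      omega
  rcases le_or_gt m k with hmk | hmk
  · calc ((Finset.range m).filter (fun A : ℕ => short m A ≤ k)).card
        ≤ (Finset.range m).card := Finset.card_filter_le _ _
      _ = m := Finset.card_range m
      _ ≤ 6 * k ^ 2 := by nlinarith
  have hsub : (Finset.range m).filter (fun A : ℕ => short m A ≤ k) ⊆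
      (Finset.Icc 1 k).biUnion (fun g => (Finset.range (g + 1)).biUnion (fun h =>
        (Finset.range m).filter (fun A : ℕ => |(g : ℤ) * A - m * h| ≤ k))) := by
    intro A hA
    have hA' := Finset.mem_filter.1 hA
    have hAm := Finset.mem_range.1 hA'.1
    obtain ⟨f, g, h1, h2, h3⟩ := short_spec m A
    have h3 := h3.trans hA'.2
    -- normalise the sign
    obtain ⟨f, g, h1, h2, h3, hg⟩ : ∃ f g : ℤ, ¬ (f = 0 ∧ g = 0) ∧ (m : ℤ) ∣ g * A - f ∧
        hgt f g ≤ k ∧ 0 ≤ g := by
      rcases le_total 0 g with hg | hg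
      · exact ⟨f, g, h1, h2, h3, hg⟩
      · refine ⟨-f, -g, by omega, ?_, by unfold hgt at *; simpa using h3, by omega⟩
        have : -g * (A : ℤ) - -f = -(g * A - f) := by ring
        rw [this]
        exact (dvd_neg).2 h2
    unfold hgt at h3
    have hg1 : g ≠ 0 := by
      rintro rfl
      have hf : f ≠ 0 := fun hf => h1 ⟨hf, rfl⟩
      have h4 : (m : ℤ) ∣ f := by
        have : (0 : ℤ) * A - f = -f := by ring
        rw [this] at h2
        exact (dvd_neg).1 h2
      have h5 := Int.natAbs_dvd_natAbs.2 h4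
      rw [Int.natAbs_natCast] at h5
      have h6 := Nat.le_of_dvd (Int.natAbs_pos.2 hf) h5
      omega
    obtain ⟨h, hh⟩ := h2
    have hgk : g ≤ k := by omega
    have hfk : |f| ≤ k := by
      rw [← Int.natCast_natAbs]; omega
    have hf2 := abs_le.1 hfk
    have hmZ : (0 : ℤ) < m := by exact_mod_cast hm
    have hmkZ : (k : ℤ) < m := by exact_mod_cast hmk
    have hAmZ : (A : ℤ) < m := by exact_mod_cast hAm
    have hA0 : (0 : ℤ) ≤ A := by positivity
    have hgpos : 0 < g := by omega
    have hh0 : 0 ≤ h := by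
      by_contra hc
      push Not at hc
      have : (m : ℤ) * h ≤ -m := by nlinarith
      nlinarith
    have hhg : h ≤ g := by
      by_contra hc
      push Not at hc
      have h7 : (m : ℤ) * (g + 1) ≤ m * h := by nlinarith
      have h8 : g * (A : ℤ) ≤ g * m := by nlinarith
      nlinarith
    rw [Finset.mem_biUnion]
    refine ⟨g.toNat, by rw [Finset.mem_Icc]; omega, ?_⟩
    rw [Finset.mem_biUnion]
    refine ⟨h.toNat, by rw [Finset.mem_range]; omega, ?_⟩
    rw [Finset.mem_filter]
    refine ⟨hA'.1, ?_⟩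
    rw [Int.toNat_of_nonneg hg, Int.toNat_of_nonneg hh0]
    have : g * (A : ℤ) - m * h = f := by linarith
    rw [this]
    exact hfk
  calc ((Finset.range m).filter (fun A : ℕ => short m A ≤ k)).card
      ≤ _ := Finset.card_le_card hsub
    _ ≤ ∑ g ∈ Finset.Icc 1 k, ((Finset.range (g + 1)).biUnion (fun h =>
        (Finset.range m).filter (fun A : ℕ => |(g : ℤ) * A - m * h| ≤ k))).card :=
        Finset.card_biUnion_le
    _ ≤ ∑ g ∈ Finset.Icc 1 k, 6 * k := by
        refine Finset.sum_le_sum fun g hg => ?_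
        have hg1 := Finset.mem_Icc.1 hg
        calc ((Finset.range (g + 1)).biUnion (fun h =>
            (Finset.range m).filter (fun A : ℕ => |(g : ℤ) * A - m * h| ≤ k))).card
            ≤ ∑ h ∈ Finset.range (g + 1),
              ((Finset.range m).filter (fun A : ℕ => |(g : ℤ) * A - m * h| ≤ k)).card :=
              Finset.card_biUnion_le
          _ ≤ ∑ h ∈ Finset.range (g + 1), (2 * k / g + 1) :=
              Finset.sum_le_sum fun h _ => card_interval_le m g h k hg1.1
          _ = (g + 1) * (2 * k / g + 1) := by rw [Finset.sum_const, Finset.card_range, smul_eq_mul]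
          _ ≤ (2 * g) * (2 * k / g + 1) := Nat.mul_le_mul_right _ (by omega)
          _ = 2 * (2 * k / g * g) + 2 * g := by ring
          _ ≤ 2 * (2 * k) + 2 * g := by
              have := Nat.div_mul_le_self (2 * k) g
              omega
          _ ≤ 6 * k := by omega
    _ = 6 * k ^ 2 := by
        rw [Finset.sum_const, Nat.card_Icc, smul_eq_mul]
        simp only [Nat.add_sub_cancel]
        ring

/-- The main inequality between the two heights. -/
theorem adm_mul_short_le (N m : ℕ) (hN : 2 ≤ N) (hm : 1 ≤ m) (A : ℤ) :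
    adm N m A * short m A ≤ (2 ^ N.primeFactors.card + 1) * m := by
  set J : ℕ := 2 ^ N.primeFactors.card with hJ
  set r : ℕ := short m A with hr
  have hr1 : 1 ≤ r := short_pos m A
  obtain ⟨f1, g1, hne, hdvd, hle⟩ := short_spec m A
  rw [← hr] at hle
  have hmin : ∀ f g : ℤ, ¬ (f = 0 ∧ g = 0) → (m : ℤ) ∣ g * A - f → r ≤ hgt f g :=
    fun f g h1 h2 => short_le ⟨f, g, h1, h2, le_rfl⟩
  have heq : hgt f1 g1 = r := le_antisymm hle (hmin f1 g1 hne hdvd)
  obtain ⟨h1, hh1⟩ := hdvd
  have hmZ : (0 : ℤ) < m := by exact_mod_cast hm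
  -- primitivity
  have hcop : IsCoprime g1 h1 := by
    rw [Int.isCoprime_iff_gcd_eq_one]
    by_contra hd
    set d := Int.gcd g1 h1 with hd0
    have hdpos : d ≠ 0 := by
      intro h0
      have := Int.gcd_eq_zero_iff.1 (hd0 ▸ h0)
      apply hne
      refine ⟨?_, this.1⟩
      have h2 : g1 * A - f1 = m * h1 := hh1
      rw [this.1, this.2] at h2
      linarith
    obtain ⟨g', hg'⟩ : (d : ℤ) ∣ g1 := Int.gcd_dvd_left ..
    obtain ⟨h', hh'⟩ : (d : ℤ) ∣ h1 := Int.gcd_dvd_right ..
    have hf' : f1 = d * (g' * A - m * h') := by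
      have h2 : g1 * A - f1 = m * h1 := hh1
      rw [hg', hh'] at h2
      linarith
    have h3 : ¬ ((g' * A - m * h') = 0 ∧ g' = 0) := by
      rintro ⟨h4, h5⟩
      apply hne
      rw [hf', hg', h4, h5]
      simp
    have h4 := hmin (g' * A - m * h') g' h3 ⟨h', by ring⟩
    have h5 : hgt f1 g1 = d * hgt (g' * A - m * h') g' := by
      unfold hgt
      rw [hf', hg', Int.natAbs_mul, Int.natAbs_mul, Int.natAbs_natCast, Nat.mul_max_mul_left]
    have h6 : 2 ≤ d := by omega
    have h7 := hgt_pos h3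
    rw [heq] at h5
    nlinarith
  obtain ⟨u, v, huv⟩ := hcop
  -- the second basis vector: `g2 = -v`, `h2 = u`, `f2 = g2 A - m h2`
  have huv : u * g1 + v * h1 = 1 := huv
  set g2 : ℤ := -v with hg2
  set f2 : ℤ := g2 * A - m * u with hf2
  have hdet : f1 * g2 - g1 * f2 = m := by
    have h2 : f1 = g1 * A - m * h1 := by linarith
    rw [hf2, h2, hg2]
    have : (g1 * A - m * h1) * -v - g1 * (-v * A - m * u) = m * (u * g1 + v * h1) := by ring
    rw [this, huv, mul_one]
  have hcop2 : IsCoprime g1 g2 := ⟨u, -h1, by rw [hg2]; linarith⟩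
  have hlat : ∀ t : ℤ, (m : ℤ) ∣ (g2 + t * g1) * A - (f2 + t * f1) := by
    intro t
    refine ⟨u + t * h1, ?_⟩
    have h2 : f1 = g1 * A - m * h1 := by linarith
    rw [hf2, h2]
    ring
  -- reduce to a statement about one `t`
  have key : ∀ t : ℤ, IsCoprime (g2 + t * g1) (N : ℤ) →
      hgt (f2 + t * f1) (g2 + t * g1) * r ≤ (J + 1) * m →
      adm N m A * r ≤ (J + 1) * m := by
    intro t ht hb
    refine le_trans (Nat.mul_le_mul_right _ ?_) hb
    rcases lt_trichotomy (g2 + t * g1) 0 with h | h | h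
    · refine adm_le ⟨-(f2 + t * f1), -(g2 + t * g1), by omega, ht.neg_left, ?_, ?_⟩
      · have e : -(g2 + t * g1) * A - -(f2 + t * f1) = -((g2 + t * g1) * A - (f2 + t * f1)) := by
          ring
        rw [e]
        exact (dvd_neg).2 (hlat t)
      · unfold hgt
        rw [Int.natAbs_neg, Int.natAbs_neg]
    · exfalso
      rw [h, Int.isCoprime_iff_gcd_eq_one] at ht
      simp at ht
      omega
    · exact adm_le ⟨f2 + t * f1, g2 + t * g1, h, ht, hlat t, le_rfl⟩
  have hrr : r * r ≤ m := short_sq_le m hm A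
  unfold hgt at heq
  rcases le_total f1.natAbs g1.natAbs with hcase | hcase
  · -- `|g1| = r`
    have hg1r : g1.natAbs = r := by rw [← heq, max_eq_right hcase]
    have hg10 : g1 ≠ 0 := by
      intro h0; rw [h0] at hg1r; simp at hg1r; omega
    -- choose the start
    set t0 : ℤ := -(g2 / g1) with ht0
    have hmod : g2 + t0 * g1 = g2 % g1 := by
      rw [ht0]
      have := Int.emod_add_mul_ediv g2 g1
      linarith
    have hm0 : 0 ≤ g2 % g1 := Int.emod_nonneg _ hg10
    have hm1 : g2 % g1 < |g1| := Int.emod_lt_abs _ hg10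
    obtain ⟨i, hi, hc⟩ := exists_coprime_term N (by omega) g1 g2 hcop2 t0
    refine key (t0 + i) hc ?_
    set G : ℤ := g2 + (t0 + i) * g1 with hG
    set F : ℤ := f2 + (t0 + i) * f1 with hF
    have hGF : f1 * G - g1 * F = m := by
      rw [hG, hF]
      have : f1 * (g2 + (t0 + i) * g1) - g1 * (f2 + (t0 + i) * f1) = f1 * g2 - g1 * f2 := by ring
      rw [this, hdet]
    have habs1 : |g1| = r := by rw [← Int.natCast_natAbs, hg1r]
    have habsf : |f1| ≤ r := by
      rw [← Int.natCast_natAbs]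
      exact_mod_cast hcase.trans hg1r.le
    have hGb : |G| ≤ J * r := by
      have e : G = g2 % g1 + i * g1 := by rw [hG, ← hmod]; ring
      rw [e]
      calc |g2 % g1 + i * g1| ≤ |g2 % g1| + |(i : ℤ) * g1| := abs_add_le _ _
        _ = g2 % g1 + i * r := by rw [abs_of_nonneg hm0, abs_mul, habs1, Nat.abs_cast]
        _ ≤ r + i * r := by rw [habs1] at hm1; linarith
        _ = (i + 1) * r := by ring
        _ ≤ J * r := by
          have : (i : ℤ) + 1 ≤ J := by exact_mod_cast hi
          gcongr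
    have hFb : |F| * r ≤ J * r * r + m := by
      have e : g1 * F = f1 * G - m := by linarith
      calc |F| * r = |g1 * F| := by rw [abs_mul, habs1]; ring
        _ = |f1 * G - m| := by rw [e]
        _ ≤ |f1 * G| + |(m : ℤ)| := abs_sub _ _
        _ = |f1| * |G| + m := by rw [abs_mul, Nat.abs_cast]
        _ ≤ r * (J * r) + m := by gcongr
        _ = J * r * r + m := by ring
    have hrrZ : (r : ℤ) * r ≤ m := by exact_mod_cast hrr
    have hlast : (J : ℤ) * r * r + m ≤ (J + 1) * m := by
      have : (J : ℤ) * (r * r) ≤ J * m := by gcongr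
      linarith
    unfold hgt
    zify
    rw [max_mul_of_nonneg _ _ (by positivity)]
    refine max_le ?_ ?_
    · exact hFb.trans hlast
    · have : |G| * r ≤ J * r * r := by gcongr
      linarith
  · -- `|f1| = r`
    have hf1r : f1.natAbs = r := by rw [← heq, max_eq_left hcase]
    have hf10 : f1 ≠ 0 := by
      intro h0; rw [h0] at hf1r; simp at hf1r; omega
    set t0 : ℤ := -(f2 / f1) with ht0
    have hmod : f2 + t0 * f1 = f2 % f1 := by
      rw [ht0]
      have := Int.emod_add_mul_ediv f2 f1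
      linarith
    have hm0 : 0 ≤ f2 % f1 := Int.emod_nonneg _ hf10
    have hm1 : f2 % f1 < |f1| := Int.emod_lt_abs _ hf10
    obtain ⟨i, hi, hc⟩ := exists_coprime_term N (by omega) g1 g2 hcop2 t0
    refine key (t0 + i) hc ?_
    set G : ℤ := g2 + (t0 + i) * g1 with hG
    set F : ℤ := f2 + (t0 + i) * f1 with hF
    have hGF : f1 * G - g1 * F = m := by
      rw [hG, hF]
      have : f1 * (g2 + (t0 + i) * g1) - g1 * (f2 + (t0 + i) * f1) = f1 * g2 - g1 * f2 := by ring
      rw [this, hdet]
    have habs1 : |f1| = r := by rw [← Int.natCast_natAbs, hf1r]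
    have habsg : |g1| ≤ r := by
      rw [← Int.natCast_natAbs]
      exact_mod_cast hcase.trans hf1r.le
    have hFb : |F| ≤ J * r := by
      have e : F = f2 % f1 + i * f1 := by rw [hF, ← hmod]; ring
      rw [e]
      calc |f2 % f1 + i * f1| ≤ |f2 % f1| + |(i : ℤ) * f1| := abs_add_le _ _
        _ = f2 % f1 + i * r := by rw [abs_of_nonneg hm0, abs_mul, habs1, Nat.abs_cast]
        _ ≤ r + i * r := by rw [habs1] at hm1; linarith
        _ = (i + 1) * r := by ring
        _ ≤ J * r := by
          have : (i : ℤ) + 1 ≤ J := by exact_mod_cast hi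
          gcongr
    have hGb : |G| * r ≤ J * r * r + m := by
      have e : f1 * G = g1 * F + m := by linarith
      calc |G| * r = |f1 * G| := by rw [abs_mul, habs1]; ring
        _ = |g1 * F + m| := by rw [e]
        _ ≤ |g1 * F| + |(m : ℤ)| := abs_add_le _ _
        _ = |g1| * |F| + m := by rw [abs_mul, Nat.abs_cast]
        _ ≤ r * (J * r) + m := by gcongr
        _ = J * r * r + m := by ring
    have hrrZ : (r : ℤ) * r ≤ m := by exact_mod_cast hrr
    have hlast : (J : ℤ) * r * r + m ≤ (J + 1) * m := by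
      have : (J : ℤ) * (r * r) ≤ J * m := by gcongr
      linarith
    unfold hgt
    zify
    rw [max_mul_of_nonneg _ _ (by positivity)]
    refine max_le ?_ ?_
    · have : |F| * r ≤ J * r * r := by gcongr
      linarith
    · exact hGb.trans hlast

end Pool.Agent.X244
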