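import Pool.Agent.X244.FinSecMain

set_option autoImplicit false

open MeasureTheory Filter Topology AddCircle

namespace Pool.Agent.X244.FinSec

/-- The columns of the Toeplitz operator of the singular inner function. -/
noncomputable def sv (k : ℕ) : H :=
  ⟨fun j : ℕ => SInner.co ((j : ℤ) - k), by
    refine memℓp_gen ?_
    have h := (SInner.hasSum_inner_nat k k).summable.norm
    refine h.congr fun j => ?_
    simp only [ENNReal.toReal_ofNat, Real.rpow_ofNat]
    rw [norm_mul, RCLike.norm_conj, sq]⟩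

theorem sv_apply (k j : ℕ) : (sv k) j = SInner.co ((j : ℤ) - k) := rfl

theorem orthonormal_sv : Orthonormal ℂ sv := by
  rw [orthonormal_iff_ite]
  intro k l
  refine (lp.hasSum_inner (sv k) (sv l)).unique ?_
  have h := SInner.hasSum_inner_nat k l
  have e : (fun i : ℕ => inner ℂ ((sv k) i) ((sv l) i)) =
      fun j : ℕ => (starRingEnd ℂ) (SInner.co ((j : ℤ) - k)) * SInner.co ((j : ℤ) - l) := by
    funext j
    rw [sv_apply, sv_apply, RCLike.inner_apply, mul_comm]
  rw [e]
  exact h

/-- The Toeplitz operator of the singular inner function. -/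
noncomputable def VV : H →L[ℂ] H :=
  (orthonormal_sv.orthogonalFamily.linearIsometry).toContinuousLinearMap

theorem VV_e (k : ℕ) : VV (e k) = sv k := by
  unfold VV e
  rw [LinearIsometry.coe_toContinuousLinearMap]
  rw [OrthogonalFamily.linearIsometry_apply_single]
  simp

theorem isIso_VV : IsIso SInner.co VV where
  entry k j := by rw [VV_e, sv_apply]
  neg m hm := SInner.co_neg hm
  real m := SInner.conj_co m
  iso := by
    have h := (ContinuousLinearMap.norm_map_iff_adjoint_comp_self VV).1 (fun x => by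
      unfold VV
      exact LinearIsometry.norm_map _ x)
    exact h

theorem volume_eq : (volume : Measure (AddCircle (1 : ℝ))) = haarAddCircle := by
  rw [volume_eq_smul_haarAddCircle, ENNReal.ofReal_one, one_smul]

/-- The generators. -/
def gens (P : ℕ → (H →L[ℂ] H)) : Set (ℕ → (H →L[ℂ] H)) :=
  {G : ℕ → (lp (fun _ : ℕ => ℂ) 2 →L[ℂ] lp (fun _ : ℕ => ℂ) 2) |
              ∃ a : Lp ℂ ⊤ (volume : Measure (AddCircle (1 : ℝ))),
              ∃ T : lp (fun _ : ℕ => ℂ) 2 →L[ℂ] lp (fun _ : ℕ => ℂ) 2,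
                (∀ j k : ℕ, (T (lp.single 2 k (1 : ℂ) : lp (fun _ : ℕ => ℂ) 2)) j
                    = fourierCoeff (⇑a : AddCircle (1 : ℝ) → ℂ) ((j : ℤ) - (k : ℤ))) ∧
                ∀ n, G n = P n * T * P n}

theorem mem_gens (P : ℕ → (H →L[ℂ] H)) (f : AddCircle (1 : ℝ) → ℂ) (hf : Measurable f)
    (hb : ∀ x, ‖f x‖ ≤ 1) (T : H →L[ℂ] H)
    (hT : ∀ j k : ℕ, (T (e k)) j = fourierCoeff f ((j : ℤ) - k)) :
    (fun n => P n * T * P n) ∈ gens P := by
  have hm : MemLp f ⊤ (volume : Measure (AddCircle (1 : ℝ))) :=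
    memLp_top_of_bound hf.aestronglyMeasurable 1 (Eventually.of_forall hb)
  refine ⟨hm.toLp, T, fun j k => ?_, fun n => rfl⟩
  have h0 : ∀ g : AddCircle (1 : ℝ) → ℂ, g =ᵐ[volume] f → g =ᵐ[haarAddCircle] f := by
    rw [volume_eq]; exact fun g h => h
  have h := h0 _ (MemLp.coeFn_toLp hm)
  have h2 : fourierCoeff (⇑hm.toLp : AddCircle (1 : ℝ) → ℂ) = fourierCoeff f :=
    fourierCoeff_congr_ae h
  rw [h2]
  exact hT j k

theorem mem_one (P : ℕ → (H →L[ℂ] H)) (hP : IsP P) : (fun n => P n) ∈ gens P := by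
  have h := mem_gens P (fun _ => 1) measurable_const (fun x => by simp) 1 (fun j k => by
    have e1 : (fun _ : AddCircle (1 : ℝ) => (1 : ℂ)) = fourier (T := (1 : ℝ)) 0 := by
      funext x; simp
    rw [e1, fourierCoeff_fourier, Pi.single_apply]
    change (e k) j = _
    rw [e_apply]
    by_cases h : j = k
    · subst h; simp
    · have : ¬ ((j : ℤ) - k = 0) := by omega
      simp [h, this])
  have e1 : (fun n => P n * 1 * P n) = fun n => P n := by
    funext n
    rw [mul_one, PP hP]
  rw [e1] at h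
  exact h

theorem mem_V (P : ℕ → (H →L[ℂ] H)) : (fun n => P n * VV * P n) ∈ gens P := by
  refine mem_gens P (SInner.bf 1) (SInner.measurable_bf 1) (fun x => (SInner.norm_bf_one x).le) VV
    fun j k => ?_
  rw [SInner.fourierCoeff_bf_one, isIso_VV.entry]

theorem mem_adV (P : ℕ → (H →L[ℂ] H)) : (fun n => P n * ad VV * P n) ∈ gens P := by
  refine mem_gens P (fun x => (starRingEnd ℂ) (SInner.bf 1 x))
    (RCLike.continuous_conj.measurable.comp (SInner.measurable_bf 1))
    (fun x => by rw [RCLike.norm_conj]; exact (SInner.norm_bf_one x).le) (ad VV) fun j k => ?_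
  rw [SInner.conj_fourierCoeff, SInner.fourierCoeff_bf_one, ad_entry isIso_VV, SInner.conj_co]
  congr 1
  ring

theorem mem_adjoin (P : ℕ → (H →L[ℂ] H)) (hP : IsP P) :
    (fun n => A1 P VV n * A2 P VV n) ∈ NonUnitalAlgebra.adjoin ℂ (gens P) := by
  have h1 := NonUnitalAlgebra.subset_adjoin ℂ (mem_one P hP)
  have h2 := NonUnitalAlgebra.subset_adjoin ℂ (mem_V P)
  have h3 := NonUnitalAlgebra.subset_adjoin ℂ (mem_adV P)
  exact mul_mem (sub_mem h1 (mul_mem h2 h3)) (sub_mem h1 (mul_mem h3 h2))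

end Pool.Agent.X244.FinSec
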