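import Pool.Agent.X244.CatPerm

set_option autoImplicit false

/-!
The symmetry of the major index of Catalan words and the sum over linear extensions.
-/

namespace Pool.Agent.X244.Cat

open Finset

theorem P_inv {q : ℝ} (hq : q ≠ 0) (n : ℕ) :
    P q⁻¹ n * q ^ (∑ i ∈ range n, (i + 1)) = (-1) ^ n * P q n := by
  induction n with
  | zero => simp [P]
  | succ n ih =>
    rw [P_succ, P_succ, Finset.sum_range_succ]
    have h : (1 - q⁻¹ ^ (n + 1)) * q ^ (n + 1) = -(1 - q ^ (n + 1)) := by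
      rw [sub_mul, inv_pow, inv_mul_cancel₀ (pow_ne_zero _ hq)]
      ring
    have h' := pow_add q (∑ i ∈ range n, (i + 1)) (n + 1)
    rw [h']
    calc P q⁻¹ n * (1 - q⁻¹ ^ (n + 1)) * (q ^ (∑ i ∈ range n, (i + 1)) * q ^ (n + 1))
        = (P q⁻¹ n * q ^ (∑ i ∈ range n, (i + 1))) * ((1 - q⁻¹ ^ (n + 1)) * q ^ (n + 1)) := by ring
      _ = _ := by rw [ih, h]; ring

theorem two_sum (m : ℕ) : 2 * ∑ k ∈ range m, (k + 1) = m * (m + 1) := by
  induction m with
  | zero => simp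
  | succ m ih => rw [Finset.sum_range_succ, mul_add, ih]; ring

theorem G_symm {q : ℝ} (hq : 0 < q) (hq1 : q ≠ 1) (t : ℕ) (ht : 1 ≤ t) :
    q ^ (t * (2 * t - 1)) * G q⁻¹ (2 * t) t = q ^ (t ^ 2) * G q (2 * t) t := by
  have hq0 : q ≠ 0 := hq.ne'
  have h1 := G_formula hq hq1 (2 * t) t le_rfl
  have h2 := G_formula (inv_pos.2 hq) (by simpa using hq1) (2 * t) t le_rfl
  have e1 : 2 * t - t + 1 = t + 1 := by omega
  rw [e1] at h1 h2
  have hA := P_ne hq hq1 (t + 1)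
  have hB := P_ne hq hq1 t
  have i1 := P_inv hq0 (t + 1)
  have i2 := P_inv hq0 t
  have i3 := P_inv hq0 (2 * t)
  set S1 := ∑ i ∈ range (t + 1), (i + 1)
  set S2 := ∑ i ∈ range t, (i + 1)
  set S3 := ∑ i ∈ range (2 * t), (i + 1)
  have s1 : 2 * S1 = (t + 1) * (t + 1 + 1) := two_sum (t + 1)
  have s2 : 2 * S2 = t * (t + 1) := two_sum t
  have s3 : 2 * S3 = 2 * t * (2 * t + 1) := two_sum (2 * t)
  have s12 : S1 + S2 = t ^ 2 + (2 * t + 1) := by nlinarith
  have s3' : S3 + 1 = t * (2 * t - 1) + (2 * t + 1) := by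
    obtain ⟨k, rfl⟩ : ∃ k, t = k + 1 := ⟨t - 1, by omega⟩
    have : 2 * (k + 1) - 1 = 2 * k + 1 := by omega
    rw [this]
    nlinarith
  have hm : (1 - q⁻¹) * q = -(1 - q) := by
    rw [sub_mul, inv_mul_cancel₀ hq0]; ring
  have key : (q ^ (t * (2 * t - 1)) * G q⁻¹ (2 * t) t) * (q ^ (2 * t + 1) * (P q (t + 1) * P q t)) =
      (q ^ (t ^ 2) * G q (2 * t) t) * (q ^ (2 * t + 1) * (P q (t + 1) * P q t)) := by
    have k1 : G q⁻¹ (2 * t) t * (P q (t + 1) * P q t) * q ^ (S3 + 1) =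
        P q (2 * t) * (1 - q) * q ^ (S1 + S2) := by
      have l1 : (-1 : ℝ) ^ (t + 1) * (-1) ^ t = -1 := by
        rw [← pow_add, show t + 1 + t = 2 * t + 1 from by ring, pow_succ, pow_mul]
        simp
      have l2 : (-1 : ℝ) ^ (2 * t) = 1 := by rw [pow_mul]; simp
      have l3 : P q⁻¹ (t + 1) * P q⁻¹ t * q ^ (S1 + S2) = -(P q (t + 1) * P q t) := by
        rw [pow_add]
        calc P q⁻¹ (t + 1) * P q⁻¹ t * (q ^ S1 * q ^ S2)
            = (P q⁻¹ (t + 1) * q ^ S1) * (P q⁻¹ t * q ^ S2) := by ring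
          _ = ((-1) ^ (t + 1) * (-1) ^ t) * (P q (t + 1) * P q t) := by rw [i1, i2]; ring
          _ = _ := by rw [l1]; ring
      have l4 : P q⁻¹ (2 * t) * (1 - q⁻¹) * q ^ (S3 + 1) = -(P q (2 * t) * (1 - q)) := by
        rw [pow_succ]
        calc P q⁻¹ (2 * t) * (1 - q⁻¹) * (q ^ S3 * q)
            = (P q⁻¹ (2 * t) * q ^ S3) * ((1 - q⁻¹) * q) := by ring
          _ = _ := by rw [i3, hm, l2]; ring
      have l5 : (1 - q⁻¹ + q⁻¹ ^ (t + 1) - q⁻¹ ^ (t + 1)) = 1 - q⁻¹ := by ring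
      rw [l5] at h2
      have l6 : P q (t + 1) * P q t = -(P q⁻¹ (t + 1) * P q⁻¹ t * q ^ (S1 + S2)) := by
        rw [l3]; ring
      calc G q⁻¹ (2 * t) t * (P q (t + 1) * P q t) * q ^ (S3 + 1)
          = -((G q⁻¹ (2 * t) t * (P q⁻¹ (t + 1) * P q⁻¹ t)) * q ^ (S3 + 1) * q ^ (S1 + S2)) := by
            rw [l6]; ring
        _ = -((P q⁻¹ (2 * t) * (1 - q⁻¹) * q ^ (S3 + 1)) * q ^ (S1 + S2)) := by rw [h2]
        _ = _ := by rw [l4]; ring
    have l5' : (1 - q + q ^ (t + 1) - q ^ (t + 1)) = 1 - q := by ring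
    rw [l5'] at h1
    rw [s3', s12, pow_add, pow_add, ← h1] at k1
    linear_combination k1
  exact mul_right_cancel₀ (by positivity : q ^ (2 * t + 1) * (P q (t + 1) * P q t) ≠ 0) key

open Classical in
theorem sum_LE {q : ℝ} (hq : q ≠ 0) (t : ℕ) :
    ∑ π ∈ univ.filter (fun π : Equiv.Perm (Fin (2 * t)) => LE t π), q ^ maj (fun i => π i) =
      q ^ (t * (2 * t - 1)) * G q⁻¹ (2 * t) t := by
  rw [G, Finset.mul_sum, ← Finset.sum_filter_add_sum_filter_not univ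
    (fun w : Fin (2 * t) → Bool => cnt w true (2 * t) = t ∧ Ballot w)]
  rw [Finset.sum_eq_zero (s := univ.filter fun w : Fin (2 * t) → Bool =>
    ¬ (cnt w true (2 * t) = t ∧ Ballot w)) (fun w hw => by
      rw [mem_filter] at hw
      rw [if_neg hw.2, mul_zero]), add_zero]
  refine Finset.sum_bij (fun π _ => word π) ?_ ?_ ?_ ?_
  · intro π hπ
    rw [mem_filter] at hπ ⊢
    exact ⟨mem_univ _, (cnt_word_all π).1, ballot_word hπ.2⟩
  · intro π hπ π' hπ' he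
    rw [mem_filter] at hπ hπ'
    apply Equiv.ext
    intro i
    apply Fin.ext
    rw [← val_word hπ.2 i, ← val_word hπ'.2 i]
    have he' : word π = word π' := he
    rw [he']
  · intro w hw
    rw [mem_filter] at hw
    have h0 : cnt w false (2 * t) = t := by
      have := cnt_all w (2 * t) le_rfl
      omega
    refine ⟨ofWord w hw.2.1 h0, ?_, word_ofWord _ _⟩
    rw [mem_filter]
    exact ⟨mem_univ _, le_ofWord _ _ hw.2.2⟩
  · intro π hπ
    rw [mem_filter] at hπ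
    rw [if_pos ⟨(cnt_word_all π).1, ballot_word hπ.2⟩, ← maj_word hπ.2, pow_add, inv_pow, mul_assoc,
      mul_inv_cancel₀ (pow_ne_zero _ hq), mul_one]

end Pool.Agent.X244.Cat
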