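import Pool.Agent.X244.CatWords

set_option autoImplicit false

/-!
Linear extensions of the `2 × t` rectangle and ballot words.
-/

namespace Pool.Agent.X244.Cat

open Finset

/-- Internal description of the linear extensions: values and positions from `0` to `2 t - 1`. -/
structure LE (t : ℕ) (π : Equiv.Perm (Fin (2 * t))) : Prop where
  low : ∀ a b, (π a).val < t → (π b).val < t → (π b).val < (π a).val → a < b
  high : ∀ a b, t ≤ (π a).val → t ≤ (π b).val → (π b).val < (π a).val → a < b
  cross : ∀ a b, t ≤ (π a).val → (π b).val < t → (π b).val ≤ (π a).val - t → a < b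

/-- The word of a permutation: `true` at the positions of the small values. -/
def word {t : ℕ} (π : Equiv.Perm (Fin (2 * t))) (i : Fin (2 * t)) : Bool := decide ((π i).val < t)

theorem word_true {t : ℕ} (π : Equiv.Perm (Fin (2 * t))) (i : Fin (2 * t)) :
    word π i = true ↔ (π i).val < t := by simp [word]

theorem word_false {t : ℕ} (π : Equiv.Perm (Fin (2 * t))) (i : Fin (2 * t)) :
    word π i = false ↔ t ≤ (π i).val := by simp [word]

theorem card_between {N : ℕ} (x y : ℕ) (h : y ≤ N) :
    (univ.filter fun v : Fin N => x ≤ v.val ∧ v.val < y).card = y - x := by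
  rw [← Nat.card_Ico x y, ← Finset.card_map Fin.valEmbedding]
  congr 1
  ext k
  simp only [mem_map, mem_filter, mem_univ, true_and, Fin.valEmbedding_apply, mem_Ico]
  constructor
  · rintro ⟨v, hv, rfl⟩
    exact hv
  · intro hk
    exact ⟨⟨k, by omega⟩, hk, rfl⟩

theorem cnt_low {t : ℕ} {π : Equiv.Perm (Fin (2 * t))} (h : LE t π) (i : Fin (2 * t))
    (hi : (π i).val < t) : cnt (word π) true i.val = t - ((π i).val + 1) := by
  rw [cnt, ← card_between ((π i).val + 1) t (N := 2 * t) (by omega)]
  refine Finset.card_bij (fun j _ => π j) ?_ ?_ ?_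
  · intro j hj
    simp only [mem_filter, mem_univ, true_and, word_true] at hj ⊢
    refine ⟨?_, hj.2⟩
    by_contra hc
    have h1 : (π j).val ≤ (π i).val := by omega
    rcases Nat.lt_or_ge (π j).val (π i).val with h2 | h2
    · have := h.low i j hi hj.2 h2
      have h3 := Fin.lt_def.1 this
      omega
    · have h3 : π j = π i := Fin.ext (by omega)
      have h4 := π.injective h3
      rw [h4] at hj
      omega
  · intro a _ b _ hab
    exact π.injective hab
  · intro v hv
    simp only [mem_filter, mem_univ, true_and] at hv
    refine ⟨π.symm v, ?_, by simp⟩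
    simp only [mem_filter, mem_univ, true_and, word_true, Equiv.apply_symm_apply]
    refine ⟨?_, hv.2⟩
    have := h.low (π.symm v) i (by simpa using hv.2) hi (by simp; omega)
    exact Fin.lt_def.1 this

theorem cnt_high {t : ℕ} {π : Equiv.Perm (Fin (2 * t))} (h : LE t π) (i : Fin (2 * t))
    (hi : t ≤ (π i).val) : cnt (word π) false i.val = 2 * t - ((π i).val + 1) := by
  rw [cnt, ← card_between ((π i).val + 1) (2 * t) (N := 2 * t) le_rfl]
  refine Finset.card_bij (fun j _ => π j) ?_ ?_ ?_
  · intro j hj
    simp only [mem_filter, mem_univ, true_and, word_false] at hj ⊢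
    refine ⟨?_, (π j).isLt⟩
    by_contra hc
    have h1 : (π j).val ≤ (π i).val := by omega
    rcases Nat.lt_or_ge (π j).val (π i).val with h2 | h2
    · have := h.high i j hi hj.2 h2
      have h3 := Fin.lt_def.1 this
      omega
    · have h3 : π j = π i := Fin.ext (by omega)
      have h4 := π.injective h3
      rw [h4] at hj
      omega
  · intro a _ b _ hab
    exact π.injective hab
  · intro v hv
    simp only [mem_filter, mem_univ, true_and] at hv
    refine ⟨π.symm v, ?_, by simp⟩
    simp only [mem_filter, mem_univ, true_and, word_false, Equiv.apply_symm_apply]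
    refine ⟨?_, by omega⟩
    have := h.high (π.symm v) i (by simp; omega) hi (by simp; omega)
    exact Fin.lt_def.1 this

theorem cnt_word_all {t : ℕ} (π : Equiv.Perm (Fin (2 * t))) :
    cnt (word π) true (2 * t) = t ∧ cnt (word π) false (2 * t) = t := by
  have h1 : cnt (word π) true (2 * t) = t := by
    rw [cnt]
    have e : t = t - 0 := by omega
    conv_rhs => rw [e, ← card_between 0 t (N := 2 * t) (by omega)]
    refine Finset.card_bij (fun j _ => π j) ?_ ?_ ?_
    · intro j hj
      simp only [mem_filter, mem_univ, true_and, word_true] at hj ⊢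
      exact ⟨by omega, hj.2⟩
    · intro a _ b _ hab
      exact π.injective hab
    · intro v hv
      simp only [mem_filter, mem_univ, true_and] at hv
      refine ⟨π.symm v, ?_, by simp⟩
      simp only [mem_filter, mem_univ, true_and, word_true, Equiv.apply_symm_apply]
      exact ⟨(π.symm v).isLt, hv.2⟩
  have h2 := cnt_all (word π) (2 * t) le_rfl
  omega

theorem cnt_succ {n : ℕ} (w : Fin n → Bool) (x : Bool) (i : Fin n) :
    cnt w x (i.val + 1) = cnt w x i.val + if w i = x then 1 else 0 := by
  rw [cnt, cnt]
  have : (univ.filter fun j : Fin n => j.val < i.val + 1 ∧ w j = x) =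
      if w i = x then insert i (univ.filter fun j : Fin n => j.val < i.val ∧ w j = x) else
        univ.filter fun j : Fin n => j.val < i.val ∧ w j = x := by
    ext j
    split_ifs with h
    · simp only [mem_filter, mem_univ, true_and, mem_insert]
      constructor
      · rintro ⟨h1, h2⟩
        rcases Nat.lt_or_ge j.val i.val with h3 | h3
        · exact Or.inr ⟨h3, h2⟩
        · exact Or.inl (Fin.ext (by omega))
      · rintro (rfl | ⟨h1, h2⟩)
        · exact ⟨by omega, h⟩
        · exact ⟨by omega, h2⟩
    · simp only [mem_filter, mem_univ, true_and]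
      constructor
      · rintro ⟨h1, h2⟩
        refine ⟨?_, h2⟩
        rcases Nat.lt_or_ge j.val i.val with h3 | h3
        · exact h3
        · exfalso
          have : j = i := Fin.ext (by omega)
          exact h (this ▸ h2)
      · rintro ⟨h1, h2⟩
        exact ⟨by omega, h2⟩
  rw [this]
  split_ifs with h
  · rw [Finset.card_insert_of_notMem (by simp)]
  · rfl

/-- A word is a ballot word if the condition holds at the ones. -/
theorem ballot_of {n : ℕ} (w : Fin n → Bool)
    (h : ∀ i : Fin n, w i = true → cnt w true i.val + 1 ≤ cnt w false i.val) : Ballot w := by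
  intro m
  induction m with
  | zero => simp [cnt]
  | succ m ih =>
    rcases Nat.lt_or_ge m n with hm | hm
    · have e1 := cnt_succ w true ⟨m, hm⟩
      have e2 := cnt_succ w false ⟨m, hm⟩
      simp only at e1 e2
      rw [e1, e2]
      rcases hw : w ⟨m, hm⟩ with _ | _
      · simp
        omega
      · have := h ⟨m, hm⟩ hw
        simp only at this
        simp
        omega
    · rw [cnt_ge w true (m + 1) (by omega), cnt_ge w false (m + 1) (by omega)]
      rw [cnt_ge w true m (by omega), cnt_ge w false m (by omega)] at ih
      exact ih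

theorem ballot_word {t : ℕ} {π : Equiv.Perm (Fin (2 * t))} (h : LE t π) : Ballot (word π) := by
  apply ballot_of
  intro i hi
  rw [word_true] at hi
  rw [cnt_low h i hi]
  -- the value `y + t` is before
  have hlt : (π i).val + t < 2 * t := by omega
  set j := π.symm ⟨(π i).val + t, hlt⟩ with hj
  have hπj : (π j).val = (π i).val + t := by rw [hj]; simp
  have hji : j < i := h.cross j i (by omega) hi (by omega)
  have h1 := cnt_high h j (by omega)
  have h2 := cnt_succ (word π) false j
  rw [if_pos ((word_false π j).2 (by omega)), h1, hπj] at h2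
  have h3 : cnt (word π) false (j.val + 1) ≤ cnt (word π) false i.val := by
    rw [cnt, cnt]
    apply Finset.card_le_card
    intro k hk
    simp only [mem_filter, mem_univ, true_and] at hk ⊢
    have := Fin.lt_def.1 hji
    exact ⟨by omega, hk.2⟩
  omega

theorem cnt_mono {n : ℕ} (w : Fin n → Bool) (x : Bool) {m m' : ℕ} (h : m ≤ m') :
    cnt w x m ≤ cnt w x m' := by
  rw [cnt, cnt]
  apply Finset.card_le_card
  intro k hk
  simp only [mem_filter, mem_univ, true_and] at hk ⊢
  exact ⟨by omega, hk.2⟩

/-- The value at a position determined by the word. -/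
def val {t : ℕ} (w : Fin (2 * t) → Bool) (i : Fin (2 * t)) : ℕ :=
  if w i = true then t - (cnt w true i.val + 1) else 2 * t - (cnt w false i.val + 1)

theorem val_word {t : ℕ} {π : Equiv.Perm (Fin (2 * t))} (h : LE t π) (i : Fin (2 * t)) :
    val (word π) i = (π i).val := by
  rw [val]
  split_ifs with hi
  · rw [word_true] at hi
    rw [cnt_low h i hi]
    omega
  · have hi' : t ≤ (π i).val := by
      rw [word_true] at hi
      omega
    rw [cnt_high h i hi']
    have := (π i).isLt
    omega

section
variable {t : ℕ} {w : Fin (2 * t) → Bool}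

theorem cnt_lt {x : Bool} (i : Fin (2 * t)) (hi : w i = x) (h : cnt w x (2 * t) = t) :
    cnt w x i.val + 1 ≤ t := by
  have h1 := cnt_succ w x i
  rw [if_pos hi] at h1
  have h2 := cnt_mono w x (m := i.val + 1) (m' := 2 * t) (by have := i.isLt; omega)
  omega

theorem cnt_lt_cnt {x : Bool} {i j : Fin (2 * t)} (hi : w i = x) (hij : i < j) :
    cnt w x i.val + 1 ≤ cnt w x j.val := by
  have h1 := cnt_succ w x i
  rw [if_pos hi] at h1
  have h2 := cnt_mono w x (m := i.val + 1) (m' := j.val) (by have := Fin.lt_def.1 hij; omega)
  omega

theorem val_lt (i : Fin (2 * t)) : val w i < 2 * t := by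
  have := i.isLt
  rw [val]
  split_ifs <;> omega

theorem val_injective (h1 : cnt w true (2 * t) = t) (h0 : cnt w false (2 * t) = t) :
    Function.Injective (fun i : Fin (2 * t) => (⟨val w i, val_lt i⟩ : Fin (2 * t))) := by
  intro i j hij
  have hij' : val w i = val w j := congrArg Fin.val hij
  by_contra hne
  have key : ∀ i j : Fin (2 * t), val w i = val w j → i < j → False := by
    intro i j hij hlt
    rw [val, val] at hij
    rcases hi : w i with _ | _ <;> rcases hj : w j with _ | _
    · have a1 := cnt_lt i hi h0
      have a2 := cnt_lt j hj h0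
      have a3 := cnt_lt_cnt (w := w) hi hlt
      rw [hi, hj] at hij
      simp at hij
      omega
    · have a1 := cnt_lt i hi h0
      have a2 := cnt_lt j hj h1
      rw [hi, hj] at hij
      simp at hij
      omega
    · have a1 := cnt_lt i hi h1
      have a2 := cnt_lt j hj h0
      rw [hi, hj] at hij
      simp at hij
      omega
    · have a1 := cnt_lt i hi h1
      have a2 := cnt_lt j hj h1
      have a3 := cnt_lt_cnt (w := w) hi hlt
      rw [hi, hj] at hij
      simp at hij
      omega
  rcases lt_trichotomy i j with h | h | h
  · exact key i j hij' h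
  · exact hne h
  · exact key j i hij'.symm h

/-- The linear extension of a ballot word. -/
noncomputable def ofWord (w : Fin (2 * t) → Bool) (h1 : cnt w true (2 * t) = t)
    (h0 : cnt w false (2 * t) = t) : Equiv.Perm (Fin (2 * t)) :=
  Equiv.ofBijective _ (Finite.injective_iff_bijective.1 (val_injective h1 h0))

theorem ofWord_val (h1 : cnt w true (2 * t) = t) (h0 : cnt w false (2 * t) = t)
    (i : Fin (2 * t)) : (ofWord w h1 h0 i).val = val w i := rfl

theorem word_ofWord (h1 : cnt w true (2 * t) = t) (h0 : cnt w false (2 * t) = t) :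
    word (ofWord w h1 h0) = w := by
  funext i
  rcases hi : w i with _ | _
  · rw [word_false, ofWord_val, val, if_neg (by simp [hi])]
    have := cnt_lt i hi h0
    omega
  · rw [word_true, ofWord_val, val, if_pos hi]
    have := cnt_lt i hi h1
    omega

theorem le_ofWord (h1 : cnt w true (2 * t) = t) (h0 : cnt w false (2 * t) = t) (hb : Ballot w) :
    LE t (ofWord w h1 h0) := by
  have hT : ∀ i, (ofWord w h1 h0 i).val < t ↔ w i = true := by
    intro i
    rw [← word_true, word_ofWord]
  have hF : ∀ i, t ≤ (ofWord w h1 h0 i).val ↔ w i = false := by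
    intro i
    rw [← word_false, word_ofWord]
  refine ⟨?_, ?_, ?_⟩
  · intro a b ha hb' hab
    rw [hT] at ha hb'
    rw [ofWord_val, ofWord_val, val, val, if_pos ha, if_pos hb'] at hab
    by_contra hc
    rcases lt_or_eq_of_le (not_lt.1 hc) with h | h
    · have a3 := cnt_lt_cnt (w := w) hb' h
      omega
    · rw [h] at hab
      omega
  · intro a b ha hb' hab
    rw [hF] at ha hb'
    have va : val w a = 2 * t - (cnt w false a.val + 1) := by rw [val, if_neg (by rw [ha]; decide)]
    have vb : val w b = 2 * t - (cnt w false b.val + 1) := by rw [val, if_neg (by rw [hb']; decide)]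
    rw [ofWord_val, ofWord_val, va, vb] at hab
    by_contra hc
    rcases lt_or_eq_of_le (not_lt.1 hc) with h | h
    · have a3 := cnt_lt_cnt (w := w) hb' h
      omega
    · rw [h] at hab
      omega
  · intro a b ha hb' hab
    rw [hF] at ha
    rw [hT] at hb'
    have va : val w a = 2 * t - (cnt w false a.val + 1) := by rw [val, if_neg (by rw [ha]; decide)]
    have vb : val w b = t - (cnt w true b.val + 1) := by rw [val, if_pos hb']
    rw [ofWord_val, ofWord_val, va, vb] at hab
    have a1 := cnt_lt a ha h0
    have a2 := cnt_lt b hb' h1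
    by_contra hc
    rcases lt_or_eq_of_le (not_lt.1 hc) with h | h
    · -- `b < a`, so the zeros before `b` are at most the zeros before `a`
      have h3 := hb (b.val + 1)
      have h4 := cnt_succ w true b
      have h5 := cnt_succ w false b
      rw [if_pos hb'] at h4
      rw [if_neg (by simp [hb'])] at h5
      have h6 := cnt_mono w false (m := b.val) (m' := a.val) (by have := Fin.lt_def.1 h; omega)
      omega
    · rw [h, ha] at hb'
      exact absurd hb' (by simp)

end

/-- Descents of a linear extension are the non-descents of its word. -/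
theorem maj_word {t : ℕ} {π : Equiv.Perm (Fin (2 * t))} (h : LE t π) :
    maj (fun i => π i) + maj (word π) = t * (2 * t - 1) := by
  rw [maj, maj, ← Finset.sum_add_distrib]
  have h1 : ∀ i : Fin (2 * t), ((if h : i.val + 1 < 2 * t then
      (if π ⟨i.val + 1, h⟩ < π i then i.val + 1 else 0) else 0) +
      (if h : i.val + 1 < 2 * t then
      (if word π ⟨i.val + 1, h⟩ < word π i then i.val + 1 else 0) else 0)) =
      if i.val + 1 < 2 * t then i.val + 1 else 0 := by
    intro i
    by_cases hi : i.val + 1 < 2 * t
    · rw [dif_pos hi, dif_pos hi, if_pos hi]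
      have hlt : i < ⟨i.val + 1, hi⟩ := by
        rw [Fin.lt_def]
        simp
      by_cases hd : word π ⟨i.val + 1, hi⟩ < word π i
      · have h2 : word π ⟨i.val + 1, hi⟩ = false ∧ word π i = true := by
          rcases h3 : word π ⟨i.val + 1, hi⟩ with _ | _ <;> rcases h4 : word π i with _ | _
          · rw [h3, h4] at hd; exact absurd hd (by decide)
          · exact ⟨rfl, rfl⟩
          · rw [h3, h4] at hd; exact absurd hd (by decide)
          · rw [h3, h4] at hd; exact absurd hd (by decide)
        rw [word_false, word_true] at h2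
        rw [if_pos hd, if_neg]
        · omega
        · intro hc
          have := Fin.lt_def.1 hc
          omega
      · rw [if_neg hd, if_pos]
        rw [Fin.lt_def]
        by_contra hc
        have hne : (π i).val ≠ (π ⟨i.val + 1, hi⟩).val := by
          intro he
          have := π.injective (Fin.ext he)
          rw [← this] at hlt
          exact lt_irrefl _ hlt
        have hlt2 : (π i).val < (π ⟨i.val + 1, hi⟩).val := by omega
        rcases Nat.lt_or_ge (π i).val t with h3 | h3
        · rcases Nat.lt_or_ge (π ⟨i.val + 1, hi⟩).val t with h4 | h4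
          · exact absurd (h.low _ _ h4 h3 hlt2) (not_lt.2 hlt.le)
          · apply hd
            rw [(word_false π _).2 h4, (word_true π _).2 h3]
            simp
        · exact absurd (h.high _ _ (by omega) h3 hlt2) (not_lt.2 hlt.le)
    · rw [dif_neg hi, dif_neg hi, if_neg hi]
  rw [Finset.sum_congr rfl fun i _ => h1 i]
  rw [Fin.sum_univ_eq_sum_range (fun k => if k + 1 < 2 * t then k + 1 else 0) (2 * t)]
  rcases t with _ | t
  · simp
  · rw [show 2 * (t + 1) = (2 * t + 1) + 1 from by ring, Finset.sum_range_succ, if_neg (by omega)]
    rw [Finset.sum_congr rfl (g := fun k => k + 1) (fun k hk => by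
      rw [mem_range] at hk
      rw [if_pos (by omega)])]
    have h2 : ∀ m : ℕ, 2 * ∑ k ∈ range m, (k + 1) = m * (m + 1) := by
      intro m
      induction m with
      | zero => simp
      | succ m ih => rw [Finset.sum_range_succ, mul_add, ih]; ring
    have h3 := h2 (2 * t + 1)
    have h4 : 2 * t + 1 + 1 - 1 = 2 * t + 1 := by omega
    rw [h4]
    nlinarith

end Pool.Agent.X244.Cat
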