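import Mathlib

set_option autoImplicit false

/-!
Major index of ballot words: the generating function of ballot words with `b` ones and `n - b` zeros.
-/

namespace Pool.Agent.X244.Cat

open Finset

/-- The major index of a finite sequence `w(1), ..., w(n)` (here indexed by `0, ..., n - 1`): the sum
of the positions `i` (counted from `1`) with `w(i) > w(i + 1)`. -/
def maj {n : ℕ} {α : Type} [LinearOrder α] (w : Fin n → α) : ℕ :=
  ∑ i : Fin n, if h : i.val + 1 < n then (if w ⟨i.val + 1, h⟩ < w i then i.val + 1 else 0) else 0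

/-- The number of letters `x` among the first `m` letters of the word `w`. -/
def cnt {n : ℕ} (w : Fin n → Bool) (x : Bool) (m : ℕ) : ℕ :=
  (univ.filter fun i : Fin n => i.val < m ∧ w i = x).card

/-- Every initial segment has at least as many zeros (`false`) as ones (`true`). -/
def Ballot {n : ℕ} (w : Fin n → Bool) : Prop := ∀ m : ℕ, cnt w true m ≤ cnt w false m

theorem maj_snoc {m : ℕ} {α : Type} [LinearOrder α] (w : Fin (m + 1) → α) (x : α) :
    maj (Fin.snoc w x : Fin (m + 2) → α) = maj w + if x < w (Fin.last m) then m + 1 else 0 := by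
  have hs : ∀ (k : ℕ) (hk : k < m + 1) (hk' : k < m + 2),
      (Fin.snoc w x : Fin (m + 2) → α) ⟨k, hk'⟩ = w ⟨k, hk⟩ := by
    intro k hk hk'
    have : (⟨k, hk'⟩ : Fin (m + 2)) = Fin.castSucc ⟨k, hk⟩ := rfl
    rw [this, Fin.snoc_castSucc]
  have hl : ∀ (k : ℕ) (hk' : k < m + 2), k = m + 1 →
      (Fin.snoc w x : Fin (m + 2) → α) ⟨k, hk'⟩ = x := by
    intro k hk' hk
    have : (⟨k, hk'⟩ : Fin (m + 2)) = Fin.last (m + 1) := by
      ext; exact hk
    rw [this, Fin.snoc_last]
  rw [maj, Fin.sum_univ_castSucc, Fin.sum_univ_castSucc, maj, Fin.sum_univ_castSucc]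
  have e1 : (∑ i : Fin m, if h : (Fin.castSucc (Fin.castSucc i)).val + 1 < m + 2 then
      (if (Fin.snoc w x : Fin (m + 2) → α) ⟨(Fin.castSucc (Fin.castSucc i)).val + 1, h⟩ <
        (Fin.snoc w x : Fin (m + 2) → α) (Fin.castSucc (Fin.castSucc i)) then
          (Fin.castSucc (Fin.castSucc i)).val + 1 else 0) else 0) =
      ∑ i : Fin m, if h : (Fin.castSucc i).val + 1 < m + 1 then
        (if w ⟨(Fin.castSucc i).val + 1, h⟩ < w (Fin.castSucc i) then
          (Fin.castSucc i).val + 1 else 0) else 0 := by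
    refine Finset.sum_congr rfl fun i _ => ?_
    have h1 : (Fin.castSucc (Fin.castSucc i)).val + 1 < m + 2 := by
      have := i.isLt
      show i.val + 1 < m + 2
      omega
    have h2 : (Fin.castSucc i).val + 1 < m + 1 := by
      have := i.isLt
      show i.val + 1 < m + 1
      omega
    rw [dif_pos h1, dif_pos h2]
    have h3 : (Fin.snoc w x : Fin (m + 2) → α) ⟨(Fin.castSucc (Fin.castSucc i)).val + 1, h1⟩ =
        w ⟨(Fin.castSucc i).val + 1, h2⟩ := hs _ h2 h1
    have h4 : (Fin.snoc w x : Fin (m + 2) → α) (Fin.castSucc (Fin.castSucc i)) =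
        w (Fin.castSucc i) := hs i.val (by have := i.isLt; omega) (by have := i.isLt; omega)
    rw [h3, h4]
    simp
  rw [e1]
  have e2 : (if h : (Fin.castSucc (Fin.last m)).val + 1 < m + 2 then
      (if (Fin.snoc w x : Fin (m + 2) → α) ⟨(Fin.castSucc (Fin.last m)).val + 1, h⟩ <
        (Fin.snoc w x : Fin (m + 2) → α) (Fin.castSucc (Fin.last m)) then
          (Fin.castSucc (Fin.last m)).val + 1 else 0) else 0) =
      if x < w (Fin.last m) then m + 1 else 0 := by
    have h1 : (Fin.castSucc (Fin.last m)).val + 1 < m + 2 := by simp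
    rw [dif_pos h1, hl _ h1 (by simp), Fin.snoc_castSucc]
    simp
  rw [e2]
  have e3 : ¬ ((Fin.last (m + 1)).val + 1 < m + 2) := by simp
  have e4 : ¬ ((Fin.last m).val + 1 < m + 1) := by simp
  rw [dif_neg e3, dif_neg e4]
  ring

theorem cnt_snoc {n : ℕ} (w : Fin n → Bool) (x y : Bool) (m : ℕ) :
    cnt (Fin.snoc w x : Fin (n + 1) → Bool) y m = cnt w y m + if n < m ∧ x = y then 1 else 0 := by
  rw [cnt, cnt, Finset.card_filter, Finset.card_filter, Fin.sum_univ_castSucc]
  congr 1
  · refine Finset.sum_congr rfl fun i _ => ?_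
    rw [Fin.snoc_castSucc (α := fun _ => Bool)]
    rfl
  · rw [Fin.snoc_last (α := fun _ => Bool)]
    rfl

theorem cnt_all {n : ℕ} (w : Fin n → Bool) (m : ℕ) (hm : n ≤ m) :
    cnt w true m + cnt w false m = n := by
  rw [cnt, cnt]
  have h1 : ∀ x, (univ.filter fun i : Fin n => i.val < m ∧ w i = x) =
      univ.filter fun i : Fin n => w i = x := by
    intro x
    refine Finset.filter_congr fun i _ => ?_
    have := i.isLt
    constructor
    · exact fun h => h.2
    · exact fun h => ⟨by omega, h⟩
  rw [h1, h1]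
  have h2 : (univ.filter fun i : Fin n => w i = false) = univ.filter fun i : Fin n => ¬ w i = true := by
    refine Finset.filter_congr fun i _ => ?_
    cases w i <;> simp
  rw [h2, Finset.card_filter_add_card_filter_not]
  simp

theorem cnt_ge {n : ℕ} (w : Fin n → Bool) (x : Bool) (m : ℕ) (hm : n ≤ m) :
    cnt w x m = cnt w x n := by
  rw [cnt, cnt]
  congr 1
  refine Finset.filter_congr fun i _ => ?_
  have := i.isLt
  constructor
  · exact fun h => ⟨this, h.2⟩
  · exact fun h => ⟨by omega, h.2⟩

/-- The last letter is a zero. -/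
theorem ballot_snoc_false {n : ℕ} (w : Fin n → Bool) :
    Ballot (Fin.snoc w false : Fin (n + 1) → Bool) ↔ Ballot w := by
  constructor
  · intro h m
    rcases le_or_gt m n with hm | hm
    · have := h m
      rw [cnt_snoc, cnt_snoc] at this
      rw [if_neg (by omega), if_neg (by omega)] at this
      simpa using this
    · have h1 := h n
      rw [cnt_snoc, cnt_snoc] at h1
      rw [if_neg (by omega), if_neg (by omega)] at h1
      rw [cnt_ge w true m hm.le, cnt_ge w false m hm.le]
      simpa using h1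
  · intro h m
    rw [cnt_snoc, cnt_snoc]
    rw [if_neg (by simp)]
    have := h m
    omega

/-- The last letter is a one. -/
theorem ballot_snoc_true {n : ℕ} (w : Fin n → Bool) :
    Ballot (Fin.snoc w true : Fin (n + 1) → Bool) ↔ Ballot w ∧ cnt w true n + 1 ≤ cnt w false n := by
  constructor
  · intro h
    refine ⟨fun m => ?_, ?_⟩
    · have := h m
      rw [cnt_snoc, cnt_snoc] at this
      rw [if_neg (c := n < m ∧ true = false) (by simp)] at this
      omega
    · have := h (n + 1)
      rw [cnt_snoc, cnt_snoc] at this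
      rw [if_pos (by simp), if_neg (by simp)] at this
      rw [cnt_ge w true (n + 1) (by omega), cnt_ge w false (n + 1) (by omega)] at this
      omega
  · rintro ⟨h, h2⟩ m
    rw [cnt_snoc, cnt_snoc]
    rw [if_neg (c := n < m ∧ true = false) (by simp)]
    rcases le_or_gt m n with hm | hm
    · rw [if_neg (by omega)]
      have := h m
      omega
    · rw [cnt_ge w true m hm.le, cnt_ge w false m hm.le]
      rw [if_pos ⟨hm, rfl⟩]
      omega

open Classical in
/-- The generating function of the ballot words of length `n` with `b` ones. -/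
noncomputable def G (q : ℝ) (n b : ℕ) : ℝ :=
  ∑ w : Fin n → Bool, if cnt w true n = b ∧ Ballot w then q ^ maj w else 0

open Classical in
/-- The generating function of the ballot words of length `n + 1` with `b` ones which end with a
one. -/
noncomputable def G1 (q : ℝ) (n b : ℕ) : ℝ :=
  ∑ w : Fin (n + 1) → Bool,
    if cnt w true (n + 1) = b ∧ Ballot w ∧ w (Fin.last n) = true then q ^ maj w else 0

theorem sum_snoc {n : ℕ} (f : (Fin (n + 1) → Bool) → ℝ) :
    ∑ w : Fin (n + 1) → Bool, f w =
      ∑ w : Fin n → Bool, (f (Fin.snoc w true) + f (Fin.snoc w false)) := by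
  rw [← (Fin.snocEquiv (fun _ : Fin (n + 1) => Bool)).sum_comp, Fintype.sum_prod_type,
    Fintype.sum_bool, ← Finset.sum_add_distrib]
  rfl

theorem maj_snoc_true {n : ℕ} (w : Fin n → Bool) :
    maj (Fin.snoc w true : Fin (n + 1) → Bool) = maj w := by
  rcases n with _ | m
  · simp [maj]
  · rw [maj_snoc, if_neg (by simp), add_zero]

theorem G1_succ (q : ℝ) (n b : ℕ) :
    G1 q n (b + 1) = if 2 * (b + 1) ≤ n + 1 then G q n b else 0 := by
  classical
  rw [G1, sum_snoc]
  simp only [Fin.snoc_last, and_true, Bool.false_eq_true, and_false, if_false, add_zero]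
  have h0 : ∀ w : Fin n → Bool, cnt (Fin.snoc w true : Fin (n + 1) → Bool) true (n + 1) =
      cnt w true n + 1 := by
    intro w
    rw [cnt_snoc, if_pos (by simp), cnt_ge w true (n + 1) (by omega)]
  split_ifs with h
  · rw [G]
    refine Finset.sum_congr rfl fun w _ => ?_
    rw [h0, maj_snoc_true, ballot_snoc_true]
    have h1 := cnt_all w n le_rfl
    congr 1
    apply propext
    constructor
    · rintro ⟨h2, ⟨h3, h4⟩⟩
      exact ⟨by omega, h3⟩
    · rintro ⟨h2, h3⟩
      exact ⟨by omega, ⟨h3, by omega⟩⟩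
  · refine Finset.sum_eq_zero fun w _ => ?_
    rw [h0, ballot_snoc_true]
    have h1 := cnt_all w n le_rfl
    rw [if_neg]
    rintro ⟨h2, ⟨h3, h4⟩⟩
    omega

theorem G1_zero (q : ℝ) (n : ℕ) : G1 q n 0 = 0 := by
  classical
  rw [G1, sum_snoc]
  simp only [Fin.snoc_last, and_true, Bool.false_eq_true, and_false, if_false, add_zero]
  refine Finset.sum_eq_zero fun w _ => ?_
  rw [if_neg]
  rintro ⟨h2, -⟩
  rw [cnt_snoc, if_pos (by simp)] at h2
  omega

theorem G_rec (q : ℝ) (n b : ℕ) :
    G q (n + 2) b = G1 q (n + 1) b + G q (n + 1) b + (q ^ (n + 1) - 1) * G1 q n b := by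
  classical
  rw [G, sum_snoc, Finset.sum_add_distrib,
    show G1 q (n + 1) b + G q (n + 1) b + (q ^ (n + 1) - 1) * G1 q n b =
      G1 q (n + 1) b + (G q (n + 1) b + (q ^ (n + 1) - 1) * G1 q n b) from by ring]
  congr 1
  · conv_rhs => rw [G1, sum_snoc]
    refine Finset.sum_congr rfl fun w _ => ?_
    simp [Fin.snoc_last]
  · rw [G, G1, Finset.mul_sum, ← Finset.sum_add_distrib]
    refine Finset.sum_congr rfl fun w _ => ?_
    have hc : cnt (Fin.snoc w false : Fin (n + 2) → Bool) true (n + 2) = cnt w true (n + 1) := by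
      rw [cnt_snoc, cnt_ge w true (n + 1 + 1) (by omega)]
      simp
    rw [hc, ballot_snoc_false, maj_snoc]
    by_cases h1 : cnt w true (n + 1) = b ∧ Ballot w
    · rw [if_pos h1, if_pos h1]
      rcases hw : w (Fin.last n) with _ | _
      · simp [h1]
      · rw [if_pos (by simp), if_pos ⟨h1.1, h1.2, rfl⟩, pow_add]
        ring
    · rw [if_neg h1, if_neg h1, if_neg (fun h => h1 ⟨h.1, h.2.1⟩)]
      ring

theorem G_zero_zero (q : ℝ) : G q 0 0 = 1 := by
  classical
  rw [G, Fintype.sum_unique, if_pos]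
  · simp [maj]
  · refine ⟨by simp [cnt], fun m => by simp [cnt]⟩

theorem G_of_gt (q : ℝ) (n b : ℕ) (h : n < 2 * b) : G q n b = 0 := by
  classical
  rw [G]
  refine Finset.sum_eq_zero fun w _ => ?_
  rw [if_neg]
  rintro ⟨h2, h3⟩
  have h1 := cnt_all w n le_rfl
  have h4 := h3 n
  omega

theorem G_one_zero (q : ℝ) : G q 1 0 = 1 := by
  classical
  rw [G, sum_snoc, Fintype.sum_unique]
  rw [if_neg, if_pos]
  · simp [maj]
  · refine ⟨by rw [cnt_snoc]; simp [cnt], ?_⟩
    rw [ballot_snoc_false]
    intro m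
    simp [cnt]
  · rintro ⟨h, -⟩
    rw [cnt_snoc] at h
    simp at h

/-- `(1 - q) (1 - q^2) ... (1 - q^n)`. -/
noncomputable def P (q : ℝ) (n : ℕ) : ℝ := ∏ i ∈ range n, (1 - q ^ (i + 1))

theorem P_succ (q : ℝ) (n : ℕ) : P q (n + 1) = P q n * (1 - q ^ (n + 1)) := by
  rw [P, P, Finset.prod_range_succ]

theorem P_ne {q : ℝ} (hq : 0 < q) (hq1 : q ≠ 1) (n : ℕ) : P q n ≠ 0 := by
  rw [P, Finset.prod_ne_zero_iff]
  intro i _ h
  have h1 : q ^ (i + 1) = 1 := by linarith
  exact hq1 ((pow_eq_one_iff_of_nonneg hq.le (by omega)).1 h1)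

/-- The closed form. -/
theorem G_formula {q : ℝ} (hq : 0 < q) (hq1 : q ≠ 1) : ∀ n b : ℕ, 2 * b ≤ n →
    G q n b * (P q (n - b + 1) * P q b) = P q n * (1 - q + q ^ (b + 1) - q ^ (n - b + 1)) := by
  intro n
  induction n using Nat.strong_induction_on with
  | _ n ih =>
  intro b hb
  rcases n with _ | _ | n
  · have : b = 0 := by omega
    subst this
    rw [G_zero_zero]
    simp [P]
  · have : b = 0 := by omega
    subst this
    rw [G_one_zero]
    simp [P, Finset.prod_range_succ]
  · rw [G_rec]
    rcases b with _ | b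
    · rw [G1_zero, G1_zero]
      have h1 := ih (n + 1) (by omega) 0 (by omega)
      simp only [Nat.sub_zero] at h1 ⊢
      have hP : P q 0 = 1 := by simp [P]
      rw [hP] at h1 ⊢
      have hG : G q (n + 1) 0 = 1 := by
        have h2 : G q (n + 1) 0 * P q (n + 1 + 1) = P q (n + 1 + 1) := by
          rw [mul_one] at h1
          rw [h1, P_succ q (n + 1)]
          ring
        have h3 := P_ne hq hq1 (n + 1 + 1)
        field_simp at h2
        exact h2
      rw [hG, P_succ q (n + 2)]
      ring
    · rw [G1_succ, G1_succ, if_pos (by omega)]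
      have ha := ih (n + 1) (by omega) b (by omega)
      have hPb := P_ne hq hq1 b
      rcases Nat.lt_or_ge (n + 1) (2 * (b + 1)) with h | h
      · -- 2 (b + 1) = n + 2
        rw [if_neg (by omega), G_of_gt q (n + 1) (b + 1) h]
        have hn : n = 2 * b := by omega
        subst hn
        have e1 : 2 * b + 1 - b + 1 = b + 2 := by omega
        have e2 : 2 * b + 2 - (b + 1) + 1 = b + 2 := by omega
        rw [e1] at ha
        rw [show 2 * b + 1 + 1 - (b + 1) + 1 = b + 2 from by omega]
        rw [P_succ q b, P_succ q (2 * b + 1)]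
        linear_combination (1 - q ^ (b + 1)) * ha
      · rw [if_pos (by omega)]
        obtain ⟨a, ha'⟩ : ∃ a, n = b + 1 + a + b := ⟨n - (b + 1 + b), by omega⟩
        subst ha'
        have hb' := ih (b + 1 + a + b + 1) (by omega) (b + 1) (by omega)
        have hc := ih (b + 1 + a + b) (by omega) b (by omega)
        have e1 : b + 1 + a + b + 1 - b + 1 = (b + a + 2) + 1 := by omega
        have e2 : b + 1 + a + b + 1 - (b + 1) + 1 = b + a + 2 := by omega
        have e3 : b + 1 + a + b - b + 1 = b + a + 2 := by omega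
        have e4 : b + 1 + a + b + 1 + 1 - (b + 1) + 1 = (b + a + 2) + 1 := by omega
        rw [e1] at ha
        rw [e2] at hb'
        rw [e3] at hc
        rw [e4]
        have f1 : P q (b + 1 + a + b + 1 + 1) = P q (b + 1 + a + b + 1) *
            (1 - q ^ (b + 1 + a + b + 1 + 1)) := P_succ _ _
        have f2 : P q (b + 1 + a + b + 1) = P q (b + 1 + a + b) *
            (1 - q ^ (b + 1 + a + b + 1)) := P_succ _ _
        rw [P_succ q (b + a + 2)] at ha ⊢
        rw [P_succ q b] at hb' ⊢
        rw [f1]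
        rw [f2] at ha hb' ⊢
        have g1 : (G q (b + 1 + a + b + 1) b + G q (b + 1 + a + b + 1) (b + 1) +
            (q ^ (b + 1 + a + b + 1) - 1) * G q (b + 1 + a + b) b) *
              (P q (b + a + 2) * (1 - q ^ (b + a + 2 + 1)) * (P q b * (1 - q ^ (b + 1)))) =
            (1 - q ^ (b + 1)) * (G q (b + 1 + a + b + 1) b *
              (P q (b + a + 2) * (1 - q ^ (b + a + 2 + 1)) * P q b)) +
            (1 - q ^ (b + a + 2 + 1)) * (G q (b + 1 + a + b + 1) (b + 1) *
              (P q (b + a + 2) * (P q b * (1 - q ^ (b + 1))))) +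
            (q ^ (b + 1 + a + b + 1) - 1) * (1 - q ^ (b + a + 2 + 1)) * (1 - q ^ (b + 1)) *
              (G q (b + 1 + a + b) b * (P q (b + a + 2) * P q b)) := by ring
        rw [g1, ha, hb', hc]
        ring

end Pool.Agent.X244.Cat
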