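import Mathlib

/-!
# A covering lemma

If `gcd (a, b) = 1`, then among any `2 ^ ω(N)` consecutive terms of the arithmetic progression
`b + t a` there is one which is prime to `N`.
-/

set_option autoImplicit false

namespace Pool.Agent.X244

/-- Sums of `n` exponentials. -/
def ExpSum (n : ℕ) (G : ℕ → ℂ) : Prop :=
  ∃ b z : Fin n → ℂ, (∀ j, z j ≠ 0) ∧ ∀ i : ℕ, G i = ∑ j, b j * z j ^ i

theorem ExpSum.eq_zero : ∀ (n : ℕ) (G : ℕ → ℂ), ExpSum n G → (∀ i < n, G i = 0) → ∀ i, G i = 0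
  | 0, G, h, _, i => by
    obtain ⟨b, z, _, h⟩ := h
    simp [h i]
  | n + 1, G, h, h0, i => by
    obtain ⟨b, z, hz, h⟩ := h
    set w : ℂ := z (Fin.last n) with hw
    have hH : ExpSum n (fun i => G (i + 1) - w * G i) := by
      refine ⟨fun j => b j.castSucc * (z j.castSucc - w), fun j => z j.castSucc,
        fun j => hz _, fun i => ?_⟩
      simp only [h]
      rw [Finset.mul_sum, ← Finset.sum_sub_distrib, Fin.sum_univ_castSucc]
      have : b (Fin.last n) * z (Fin.last n) ^ (i + 1) - w * (b (Fin.last n) * z (Fin.last n) ^ i)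
          = 0 := by
        rw [← hw]; ring
      rw [this, add_zero]
      refine Finset.sum_congr rfl fun j _ => ?_
      ring
    have h1 := ExpSum.eq_zero n _ hH (fun i hi => by
      rw [h0 (i + 1) (by omega), h0 i (by omega)]; ring)
    induction i with
    | zero => exact h0 0 (by omega)
    | succ i ih =>
      have := h1 i
      rw [ih] at this
      simpa using this

theorem ExpSum.mul {n : ℕ} {G : ℕ → ℂ} (h : ExpSum n G) (c ζ : ℂ) (hζ : ζ ≠ 0) :
    ExpSum (n + n) (fun i => G i * (1 - c * ζ ^ i)) := by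
  obtain ⟨b, z, hz, h⟩ := h
  refine ⟨Fin.append b (fun j => - (b j * c)), Fin.append z (fun j => z j * ζ), ?_, ?_⟩
  · intro j
    refine Fin.addCases (fun j => ?_) (fun j => ?_) j
    · rw [Fin.append_left]; exact hz j
    · rw [Fin.append_right]; exact mul_ne_zero (hz j) hζ
  · intro i
    show G i * _ = _
    rw [h i, Fin.sum_univ_add]
    simp only [Fin.append_left, Fin.append_right]
    rw [mul_sub, mul_one, Finset.sum_mul, sub_eq_add_neg, ← Finset.sum_neg_distrib]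
    congr 1
    refine Finset.sum_congr rfl fun j _ => ?_
    rw [mul_pow]
    ring

theorem expSum_prod (P : Finset ℕ) (c ζ : ℕ → ℂ) (hζ : ∀ p ∈ P, ζ p ≠ 0) :
    ExpSum (2 ^ P.card) (fun i => ∏ p ∈ P, (1 - c p * ζ p ^ i)) := by
  classical
  induction P using Finset.induction_on with
  | empty =>
    have h1 : ExpSum 1 (fun _ => 1) := ⟨fun _ => 1, fun _ => 1, fun _ => one_ne_zero, fun i => by simp⟩
    simpa using h1
  | insert p P hp ih =>
    have h1 := (ih (fun q hq => hζ q (Finset.mem_insert_of_mem hq))).mul (c p) (ζ p)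
      (hζ p (Finset.mem_insert_self _ _))
    rw [Finset.card_insert_of_notMem hp, pow_succ, mul_two]
    convert h1 using 2 with i
    rw [Finset.prod_insert hp, mul_comm]

/-- Among `2 ^ ω(N)` consecutive terms of `b + t a`, `gcd (a, b) = 1`, one is prime to `N`. -/
theorem exists_coprime_term (N : ℕ) (hN : N ≠ 0) (a b : ℤ) (hab : IsCoprime a b) (t₀ : ℤ) :
    ∃ i : ℕ, i < 2 ^ N.primeFactors.card ∧ IsCoprime (b + (t₀ + i) * a) (N : ℤ) := by
  classical
  by_contra hcon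
  push Not at hcon
  set P : Finset ℕ := N.primeFactors.filter (fun p => ¬ (p : ℤ) ∣ a) with hP
  have hPp : ∀ p ∈ P, p.Prime := fun p hp => Nat.prime_of_mem_primeFactors (Finset.mem_filter.1 hp).1
  let ζ : ℕ → ℂ := fun p => Complex.exp (2 * Real.pi * Complex.I / p)
  have hζ : ∀ p ∈ P, IsPrimitiveRoot (ζ p) p := fun p hp =>
    Complex.isPrimitiveRoot_exp p (hPp p hp).ne_zero
  have hζ0 : ∀ p ∈ P, ζ p ≠ 0 := fun p hp => (hζ p hp).ne_zero (hPp p hp).ne_zero
  let F : ℕ → ℂ := fun i => ∏ p ∈ P, (1 - ζ p ^ (b + t₀ * a) * (ζ p ^ a) ^ i)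
  have hFe : ExpSum (2 ^ P.card) F :=
    expSum_prod P (fun p => ζ p ^ (b + t₀ * a)) (fun p => ζ p ^ a) (fun p hp =>
      zpow_ne_zero _ (hζ0 p hp))
  have hterm : ∀ p ∈ P, ∀ i : ℕ, (1 - ζ p ^ (b + t₀ * a) * (ζ p ^ a) ^ i = 0 ↔
      (p : ℤ) ∣ b + (t₀ + i) * a) := by
    intro p hp i
    have e : ζ p ^ (b + t₀ * a) * (ζ p ^ a) ^ i = ζ p ^ (b + (t₀ + i) * a) := by
      rw [← zpow_natCast, ← zpow_mul, ← zpow_add₀ (hζ0 p hp)]
      congr 1
      ring
    rw [e, sub_eq_zero, eq_comm, (hζ p hp).zpow_eq_one_iff_dvd]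
  have hcard : P.card ≤ N.primeFactors.card := Finset.card_filter_le _ _
  have hF0 : ∀ i < 2 ^ P.card, F i = 0 := by
    intro i hi
    have hi2 : i < 2 ^ N.primeFactors.card :=
      hi.trans_le (Nat.pow_le_pow_right (by norm_num) hcard)
    have h1 := hcon i hi2
    rw [Int.isCoprime_iff_gcd_eq_one] at h1
    obtain ⟨p, hp, hpd⟩ := Nat.exists_prime_and_dvd h1
    have hp1 : (p : ℤ) ∣ b + (t₀ + i) * a :=
      (Int.natCast_dvd_natCast.2 hpd).trans (Int.gcd_dvd_left ..)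
    have hp2 : (p : ℤ) ∣ (N : ℤ) := (Int.natCast_dvd_natCast.2 hpd).trans (Int.gcd_dvd_right ..)
    have hpa : ¬ (p : ℤ) ∣ a := by
      intro hpa
      have hpb : (p : ℤ) ∣ b := by
        have := dvd_sub hp1 (hpa.mul_left (t₀ + i))
        simpa using this
      have := hab.isUnit_of_dvd' hpa hpb
      rw [Int.isUnit_iff_natAbs_eq, Int.natAbs_natCast] at this
      exact hp.one_lt.ne' this
    have hpP : p ∈ P := by
      rw [hP, Finset.mem_filter]
      exact ⟨Nat.mem_primeFactors.2 ⟨hp, Int.natCast_dvd_natCast.1 hp2, hN⟩, hpa⟩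
    exact Finset.prod_eq_zero hpP ((hterm p hpP i).2 hp1)
  have hF := ExpSum.eq_zero _ F hFe hF0
  -- a term which is prime to all `p` in `P`
  set u : ℤ := ((∏ p ∈ P.filter (fun p : ℕ => ¬ (p : ℤ) ∣ b), p : ℕ) : ℤ) with hu
  have hgood : ∀ s : ℤ, (∃ k : ℤ, s = u + k * N) → ∀ p ∈ P, ¬ (p : ℤ) ∣ b + s * a := by
    rintro s ⟨k, rfl⟩ p hp hdvd
    have hpN : (p : ℤ) ∣ (N : ℤ) := by
      have := (Finset.mem_filter.1 hp).1
      exact Int.natCast_dvd_natCast.2 (Nat.dvd_of_mem_primeFactors this)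
    have hpa : ¬ (p : ℤ) ∣ a := (Finset.mem_filter.1 hp).2
    have hpI : Prime (p : ℤ) := Nat.prime_iff_prime_int.1 (hPp p hp)
    have h1 : (p : ℤ) ∣ b + u * a := by
      have h2 : (p : ℤ) ∣ k * N * a := (hpN.mul_left k).mul_right a
      have h3 := dvd_sub hdvd h2
      have h4 : b + (u + k * N) * a - k * N * a = b + u * a := by ring
      rwa [h4] at h3
    by_cases hpb : (p : ℤ) ∣ b
    · have h2 : (p : ℤ) ∣ u * a := (dvd_add_right hpb).1 h1
      rcases hpI.dvd_or_dvd h2 with h3 | h3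
      · rw [hu, Int.natCast_dvd_natCast] at h3
        obtain ⟨q, hq, hpq⟩ := (Prime.dvd_finsetProd_iff (hPp p hp).prime _).1 h3
        have hq1 := Finset.mem_filter.1 hq
        have : p = q := (Nat.prime_dvd_prime_iff_eq (hPp p hp) (hPp q hq1.1)).1 hpq
        subst this
        exact hq1.2 hpb
      · exact hpa h3
    · have h2 : (p : ℤ) ∣ u := by
        rw [hu, Int.natCast_dvd_natCast]
        exact Finset.dvd_prod_of_mem _ (Finset.mem_filter.2 ⟨hp, hpb⟩)
      exact hpb ((dvd_add_left (h2.mul_right a)).1 h1)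
  obtain ⟨i, k, hik⟩ : ∃ (i : ℕ) (k : ℤ), t₀ + i = u + k * N := by
    refine ⟨(u + (|t₀| + |u|) * N - t₀).toNat, |t₀| + |u|, ?_⟩
    have hN1 : (1 : ℤ) ≤ N := by exact_mod_cast Nat.one_le_iff_ne_zero.2 hN
    have h1 : |t₀| + |u| ≤ (|t₀| + |u|) * N := by
      have : 0 ≤ |t₀| + |u| := by positivity
      nlinarith
    have h2 := le_abs_self t₀
    have h3 := neg_abs_le u
    have h4 : 0 ≤ u + (|t₀| + |u|) * N - t₀ := by linarith
    rw [Int.toNat_of_nonneg h4]
    ring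
  have h1 := hF i
  rw [Finset.prod_eq_zero_iff] at h1
  obtain ⟨p, hp, h2⟩ := h1
  rw [hterm p hp i] at h2
  exact hgood (t₀ + i) ⟨k, hik⟩ p hp h2

end Pool.Agent.X244
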