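import Mathlib

/-!
# Finite sections on `ℓ²(ℕ)`: the projections `P n` and the flips `W n`
-/

set_option autoImplicit false

open Filter Topology

namespace Pool.Agent.X244.FinSec

/-- The Hilbert space. -/
noncomputable abbrev H : Type := lp (fun _ : ℕ => ℂ) 2

/-- The unit vectors. -/
noncomputable def e (k : ℕ) : H := lp.single 2 k (1 : ℂ)

theorem e_apply (k j : ℕ) : (e k) j = if j = k then 1 else 0 := by
  unfold e
  rw [lp.single_apply]
  by_cases h : j = k
  · subst h; simp
  · simp [h]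

theorem inner_e_left (k : ℕ) (x : H) : inner ℂ (e k) x = x k := by
  unfold e
  rw [lp.inner_single_left]
  simp

theorem inner_e_right (k : ℕ) (x : H) : inner ℂ x (e k) = (starRingEnd ℂ) (x k) := by
  rw [← inner_conj_symm, inner_e_left]

theorem norm_inner_self' (x : H) : ‖inner ℂ x x‖ = ‖x‖ * ‖x‖ := by
  rw [inner_self_eq_norm_sq_to_K, norm_pow, pow_two]
  simp

/-- The defining property of the projections. -/
def IsP (P : ℕ → (H →L[ℂ] H)) : Prop :=
  ∀ (n : ℕ) (x : H) (j : ℕ), (P n x) j = if j ≤ n then x j else 0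

/-- The defining property of the flips. -/
def IsW (W : ℕ → (H →L[ℂ] H)) : Prop :=
  ∀ (n : ℕ) (x : H) (j : ℕ), (W n x) j = if j ≤ n then x (n - j) else 0

theorem sum_apply {ι : Type*} (s : Finset ι) (f : ι → H) (j : ℕ) :
    (∑ i ∈ s, f i : H) j = ∑ i ∈ s, (f i) j := by
  rw [lp.coeFn_sum, Finset.sum_apply]

theorem exists_isP : ∃ P, IsP P := by
  refine ⟨fun n => ∑ k ∈ Finset.range (n + 1), (innerSL ℂ (e k)).smulRight (e k), ?_⟩
  intro n x j
  rw [_root_.sum_apply, sum_apply]
  simp only [ContinuousLinearMap.smulRight_apply, innerSL_apply_apply, inner_e_left, lp.coeFn_smul,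
    Pi.smul_apply, e_apply, smul_eq_mul, mul_ite, mul_one, mul_zero]
  rw [Finset.sum_ite_eq]
  simp only [Finset.mem_range, Nat.lt_succ_iff]

theorem exists_isW : ∃ W, IsW W := by
  refine ⟨fun n => ∑ k ∈ Finset.range (n + 1), (innerSL ℂ (e (n - k))).smulRight (e k), ?_⟩
  intro n x j
  rw [_root_.sum_apply, sum_apply]
  simp only [ContinuousLinearMap.smulRight_apply, innerSL_apply_apply, inner_e_left, lp.coeFn_smul,
    Pi.smul_apply, e_apply, smul_eq_mul, mul_ite, mul_one, mul_zero]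
  rw [Finset.sum_ite_eq]
  simp only [Finset.mem_range, Nat.lt_succ_iff]

section
variable {P W : ℕ → (H →L[ℂ] H)} (hP : IsP P) (hW : IsW W)
include hP

theorem PP (n : ℕ) : P n * P n = P n := by
  ext x j
  rw [mul_apply_eq_comp, hP, hP]
  split_ifs <;> rfl

theorem P_sum (n : ℕ) (x : H) : P n x = ∑ k ∈ Finset.range (n + 1), x k • e k := by
  ext j
  rw [hP, sum_apply]
  simp only [lp.coeFn_smul, Pi.smul_apply, e_apply, smul_eq_mul, mul_ite, mul_one, mul_zero]
  rw [Finset.sum_ite_eq]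
  simp only [Finset.mem_range, Nat.lt_succ_iff]

theorem inner_P (n : ℕ) (x y : H) :
    inner ℂ (P n x) y = ∑ k ∈ Finset.range (n + 1), (starRingEnd ℂ) (x k) * y k := by
  rw [P_sum hP, sum_inner]
  refine Finset.sum_congr rfl fun k _ => ?_
  rw [inner_smul_left, inner_e_left]

theorem inner_P_comm (n : ℕ) (x y : H) : inner ℂ (P n x) y = inner ℂ x (P n y) := by
  rw [inner_P hP, ← inner_conj_symm x, inner_P hP, map_sum]
  refine Finset.sum_congr rfl fun k _ => ?_
  rw [map_mul, Complex.conj_conj, mul_comm]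

theorem norm_P_le (n : ℕ) (x : H) : ‖P n x‖ ≤ ‖x‖ := by
  rcases eq_or_lt_of_le (norm_nonneg (P n x)) with h | h
  · rw [← h]; exact norm_nonneg _
  · have h1 : inner ℂ (P n x) (P n x) = inner ℂ (P n x) x := by
      rw [inner_P_comm hP n x (P n x), ← mul_apply_eq_comp, PP hP, inner_P_comm hP]
    have h2 : ‖P n x‖ * ‖P n x‖ ≤ ‖P n x‖ * ‖x‖ := by
      calc ‖P n x‖ * ‖P n x‖ = ‖inner ℂ (P n x) (P n x)‖ := by
            rw [norm_inner_self']
        _ ≤ _ := by rw [h1]; exact norm_inner_le_norm _ _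
    exact le_of_mul_le_mul_left h2 h

theorem tendsto_P (x : H) : Tendsto (fun n => P n x) atTop (𝓝 x) := by
  have h := (lp.hasSum_single (p := 2) (by norm_num) x).tendsto_sum_nat
  have h2 := h.comp (tendsto_add_atTop_nat 1)
  refine h2.congr fun n => ?_
  rw [P_sum hP]
  simp only [Function.comp]
  refine Finset.sum_congr rfl fun k _ => ?_
  unfold e
  rw [← lp.single_smul]
  simp

theorem tendsto_P' {y : ℕ → H} {a : H} (h : Tendsto y atTop (𝓝 a)) :
    Tendsto (fun n => P n (y n)) atTop (𝓝 a) := by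
  have h1 : Tendsto (fun n => P n (y n - a)) atTop (𝓝 0) := by
    have h2 : Tendsto (fun n => ‖y n - a‖) atTop (𝓝 0) := by
      rw [tendsto_iff_norm_sub_tendsto_zero] at h
      exact h
    exact squeeze_zero_norm (fun n => norm_P_le hP n _) h2
  have h3 := h1.add (tendsto_P hP a)
  rw [zero_add] at h3
  refine h3.congr fun n => ?_
  rw [map_sub, sub_add_cancel]

include hW

theorem WW (n : ℕ) : W n * W n = P n := by
  ext x j
  rw [mul_apply_eq_comp, hP, hW, hW]
  split_ifs with h1 h2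
  · rw [show n - (n - j) = j by omega]
  · omega
  · rfl

theorem PW (n : ℕ) : P n * W n = W n := by
  ext x j
  rw [mul_apply_eq_comp, hP, hW]
  split_ifs <;> rfl

theorem WP (n : ℕ) : W n * P n = W n := by
  ext x j
  rw [mul_apply_eq_comp, hW, hP, hW]
  split_ifs with h1 h2
  · rfl
  · omega
  · rfl

omit hP in
theorem W_sum (n : ℕ) (x : H) : W n x = ∑ k ∈ Finset.range (n + 1), x k • e (n - k) := by
  rw [← Finset.sum_range_reflect]
  ext j
  rw [hW, sum_apply]
  have : ∀ k ∈ Finset.range (n + 1), (x (n + 1 - 1 - k) • e (n - (n + 1 - 1 - k)) : H) j =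
      if j = k then x (n - k) else 0 := by
    intro k hk
    rw [Finset.mem_range] at hk
    rw [lp.coeFn_smul, Pi.smul_apply, e_apply]
    have e1 : n + 1 - 1 - k = n - k := by omega
    have e2 : n - (n - k) = k := by omega
    rw [e1, e2]
    split_ifs <;> simp
  rw [Finset.sum_congr rfl this, Finset.sum_ite_eq]
  simp only [Finset.mem_range, Nat.lt_succ_iff]

omit hP in
theorem inner_W (n : ℕ) (x y : H) :
    inner ℂ (W n x) y = ∑ k ∈ Finset.range (n + 1), (starRingEnd ℂ) (x k) * y (n - k) := by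
  rw [W_sum hW, sum_inner]
  refine Finset.sum_congr rfl fun k _ => ?_
  rw [inner_smul_left, inner_e_left]

omit hP in
theorem inner_W_comm (n : ℕ) (x y : H) : inner ℂ (W n x) y = inner ℂ x (W n y) := by
  rw [inner_W hW, ← inner_conj_symm x, inner_W hW, map_sum, ← Finset.sum_range_reflect]
  refine Finset.sum_congr rfl fun k hk => ?_
  rw [Finset.mem_range] at hk
  have e1 : n + 1 - 1 - k = n - k := by omega
  have e2 : n - (n - k) = k := by omega
  rw [e1, e2, map_mul, Complex.conj_conj, mul_comm]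

theorem norm_W_le (n : ℕ) (x : H) : ‖W n x‖ ≤ ‖x‖ := by
  have h1 : inner ℂ (W n x) (W n x) = inner ℂ (P n x) x := by
    rw [inner_W_comm hW, ← mul_apply_eq_comp, WW hP hW, inner_P_comm hP]
  have h2 : ‖W n x‖ * ‖W n x‖ ≤ ‖x‖ * ‖x‖ := by
    calc ‖W n x‖ * ‖W n x‖ = ‖inner ℂ (W n x) (W n x)‖ := by
          rw [norm_inner_self']
      _ ≤ ‖P n x‖ * ‖x‖ := by rw [h1]; exact norm_inner_le_norm _ _
      _ ≤ _ := mul_le_mul_of_nonneg_right (norm_P_le hP n x) (norm_nonneg _)
  exact abs_le_of_sq_le_sq' (by nlinarith) (norm_nonneg _) |>.2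

end

/-- An isometric lower triangular Toeplitz operator with real coefficients. -/
structure IsIso (c : ℤ → ℂ) (V : H →L[ℂ] H) : Prop where
  entry : ∀ k j : ℕ, (V (e k)) j = c ((j : ℤ) - k)
  neg : ∀ m : ℤ, m < 0 → c m = 0
  real : ∀ m, (starRingEnd ℂ) (c m) = c m
  iso : ContinuousLinearMap.adjoint V * V = 1

section
variable {P W : ℕ → (H →L[ℂ] H)} (hP : IsP P) (hW : IsW W)
variable {c : ℤ → ℂ} {V : H →L[ℂ] H} (hV : IsIso c V)

/-- The adjoint. -/
noncomputable abbrev ad (V : H →L[ℂ] H) : H →L[ℂ] H := ContinuousLinearMap.adjoint V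

include hV in
theorem ad_entry (k j : ℕ) : (ad V (e k)) j = c ((k : ℤ) - j) := by
  rw [← inner_e_left, ContinuousLinearMap.adjoint_inner_right, inner_e_right, hV.entry, hV.real]

include hV hP in
theorem PadP (n : ℕ) : P n * ad V * P n = ad V * P n := by
  ext x j
  rw [mul_apply_eq_comp, mul_apply_eq_comp, mul_apply_eq_comp, hP]
  split_ifs with h
  · rfl
  · rw [P_sum hP, map_sum, sum_apply]
    symm
    refine Finset.sum_eq_zero fun k hk => ?_
    rw [Finset.mem_range] at hk
    rw [map_smul, lp.coeFn_smul, Pi.smul_apply, ad_entry hV, hV.neg _ (by omega), smul_zero]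

theorem ext_inner' (A B : H →L[ℂ] H)
    (h : ∀ x y : H, inner ℂ (A x) y = inner ℂ (B x) y) : A = B := by
  ext1 x
  refine ext_inner_right ℂ fun y => h x y

include hV hP in
theorem PVP (n : ℕ) : P n * V * P n = P n * V := by
  refine ext_inner' _ _ fun x y => ?_
  have h1 := congrArg (fun T : H →L[ℂ] H => inner ℂ x (T y)) (PadP hP hV n)
  simp only [mul_apply_eq_comp] at h1 ⊢
  rw [inner_P_comm hP, ← ContinuousLinearMap.adjoint_inner_right, inner_P_comm hP,
    inner_P_comm hP, ← ContinuousLinearMap.adjoint_inner_right]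
  exact h1

include hP hW hV in
theorem WVW (n : ℕ) : W n * V * W n = P n * ad V * P n := by
  ext x j
  simp only [mul_apply_eq_comp]
  rw [hW, hP]
  split_ifs with h
  · rw [W_sum hW, P_sum hP, map_sum, map_sum, sum_apply, sum_apply]
    refine Finset.sum_congr rfl fun k hk => ?_
    rw [Finset.mem_range] at hk
    rw [map_smul, map_smul, lp.coeFn_smul, lp.coeFn_smul, Pi.smul_apply, Pi.smul_apply,
      ad_entry hV, hV.entry]
    congr 2
    omega
  · rfl

include hP hW hV in
theorem WadW (n : ℕ) : W n * ad V * W n = P n * V * P n := by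
  have h : W n * (W n * V * W n) * W n = W n * (P n * ad V * P n) * W n := by
    rw [WVW hP hW hV n]
  have e1 : W n * (W n * V * W n) * W n = P n * V * P n := by
    rw [show W n * (W n * V * W n) * W n = (W n * W n) * V * (W n * W n) by noncomm_ring,
      WW hP hW]
  have e2 : W n * (P n * ad V * P n) * W n = W n * ad V * W n := by
    rw [show W n * (P n * ad V * P n) * W n = (W n * P n) * ad V * (P n * W n) by noncomm_ring,
      WP hP hW, PW hP hW]
  rw [e1, e2] at h
  exact h.symm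

/-- The first sequence. -/
noncomputable def A1 (P : ℕ → (H →L[ℂ] H)) (V : H →L[ℂ] H) (n : ℕ) : H →L[ℂ] H :=
  P n - (P n * V * P n) * (P n * ad V * P n)

/-- The second sequence. -/
noncomputable def A2 (P : ℕ → (H →L[ℂ] H)) (V : H →L[ℂ] H) (n : ℕ) : H →L[ℂ] H :=
  P n - (P n * ad V * P n) * (P n * V * P n)

/-- The projection onto the model space. -/
noncomputable def Q (V : H →L[ℂ] H) : H →L[ℂ] H := 1 - V * ad V

include hP hV in
theorem A1_eq (n : ℕ) : A1 P V n = P n * Q V * P n := by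
  unfold A1 Q
  rw [PadP hP hV, PVP hP hV]
  rw [mul_sub, sub_mul, mul_one, PP hP]
  noncomm_ring

include hP hW hV in
theorem W_A2_W (n : ℕ) : W n * A2 P V n * W n = A1 P V n := by
  unfold A1 A2
  rw [mul_sub, sub_mul, WP hP hW, WW hP hW]
  congr 1
  have e1 : W n * ((P n * ad V * P n) * (P n * V * P n)) * W n =
      (W n * P n) * ad V * (P n * P n) * V * (P n * W n) := by noncomm_ring
  rw [e1, WP hP hW, PP hP, PW hP hW, ← WW hP hW]
  have e2 : W n * ad V * (W n * W n) * V * W n = (W n * ad V * W n) * (W n * V * W n) := by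
    noncomm_ring
  rw [e2, WVW hP hW hV, WadW hP hW hV, WW hP hW]

include hP hW hV in
theorem W_A1_W (n : ℕ) : W n * A1 P V n * W n = A2 P V n := by
  unfold A1 A2
  rw [mul_sub, sub_mul, WP hP hW, WW hP hW]
  congr 1
  have e1 : W n * ((P n * V * P n) * (P n * ad V * P n)) * W n =
      (W n * P n) * V * (P n * P n) * ad V * (P n * W n) := by noncomm_ring
  rw [e1, WP hP hW, PP hP, PW hP hW, ← WW hP hW]
  have e2 : W n * V * (W n * W n) * ad V * W n = (W n * V * W n) * (W n * ad V * W n) := by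
    noncomm_ring
  rw [e2, WVW hP hW hV, WadW hP hW hV, WW hP hW]

include hP hV in
theorem tendsto_A2 (x : H) : Tendsto (fun n => A2 P V n x) atTop (𝓝 0) := by
  have h1 : Tendsto (fun n => P n x) atTop (𝓝 x) := tendsto_P hP x
  have h2 : Tendsto (fun n => P n (ad V (P n (P n (V (P n x)))))) atTop (𝓝 (ad V (V x))) :=
    tendsto_P' hP (((ad V).continuous.tendsto _).comp
      (tendsto_P' hP (tendsto_P' hP ((V.continuous.tendsto _).comp h1))))
  have h3 : ad V (V x) = x := by
    rw [← mul_apply_eq_comp, hV.iso]; rfl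
  rw [h3] at h2
  have h4 := h1.sub h2
  rw [sub_self] at h4
  exact h4

include hV in
theorem norm_V (x : H) : ‖V x‖ = ‖x‖ := by
  have h1 : inner ℂ (V x) (V x) = inner ℂ x x := by
    rw [← ContinuousLinearMap.adjoint_inner_right, ← mul_apply_eq_comp, hV.iso]
    rfl
  have h2 : ‖V x‖ * ‖V x‖ = ‖x‖ * ‖x‖ := by
    rw [← norm_inner_self', ← norm_inner_self', h1]
  nlinarith [norm_nonneg (V x), norm_nonneg x, mul_self_inj_of_nonneg (norm_nonneg (V x))
    (norm_nonneg x) |>.1 h2]

include hV in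
theorem Q_idem : Q V * Q V = Q V := by
  unfold Q
  have e1 : (1 - V * ad V) * (1 - V * ad V) = 1 - V * ad V - V * ad V + V * (ad V * V) * ad V := by
    noncomm_ring
  rw [e1, hV.iso, mul_one]
  noncomm_ring

theorem Q_comm (x y : H) : inner ℂ (Q V x) y = inner ℂ x (Q V y) := by
  unfold Q
  have h : inner ℂ (V (ad V x)) y = inner ℂ x (V (ad V y)) := by
    rw [← ContinuousLinearMap.adjoint_inner_right V, ContinuousLinearMap.adjoint_inner_left]
  rw [_root_.sub_apply, _root_.sub_apply, inner_sub_left, inner_sub_right,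
    mul_apply_eq_comp, mul_apply_eq_comp, h]
  rfl

include hV in
theorem norm_Q_le (x : H) : ‖Q V x‖ ≤ ‖x‖ := by
  rcases eq_or_lt_of_le (norm_nonneg (Q V x)) with h | h
  · rw [← h]; exact norm_nonneg _
  · have h1 : inner ℂ (Q V x) (Q V x) = inner ℂ (Q V x) x := by
      rw [Q_comm x (Q V x), ← mul_apply_eq_comp, Q_idem hV, Q_comm]
    have h2 : ‖Q V x‖ * ‖Q V x‖ ≤ ‖Q V x‖ * ‖x‖ := by
      calc ‖Q V x‖ * ‖Q V x‖ = ‖inner ℂ (Q V x) (Q V x)‖ := by
            rw [norm_inner_self']
        _ ≤ _ := by rw [h1]; exact norm_inner_le_norm _ _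
    exact le_of_mul_le_mul_left h2 h

include hP hV in
theorem norm_A1_le (n : ℕ) (x : H) : ‖A1 P V n x‖ ≤ ‖x‖ := by
  rw [A1_eq hP hV, mul_apply_eq_comp, mul_apply_eq_comp]
  exact (norm_P_le hP n _).trans ((norm_Q_le hV _).trans (norm_P_le hP n _))

include hP hW hV in
theorem norm_A2_le (n : ℕ) (x : H) : ‖A2 P V n x‖ ≤ ‖x‖ := by
  rw [← W_A1_W hP hW hV, mul_apply_eq_comp, mul_apply_eq_comp]
  exact (norm_W_le hP hW n _).trans ((norm_A1_le hP hV n _).trans (norm_W_le hP hW n _))

include hP hV in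
theorem tendsto_A1 (x : H) : Tendsto (fun n => A1 P V n x) atTop (𝓝 (Q V x)) := by
  have h1 : Tendsto (fun n => P n (Q V (P n x))) atTop (𝓝 (Q V x)) :=
    tendsto_P' hP (((Q V).continuous.tendsto _).comp (tendsto_P hP x))
  refine h1.congr fun n => ?_
  rw [A1_eq hP hV, mul_apply_eq_comp, mul_apply_eq_comp]

include hP hV in
theorem tendsto_A12 (x : H) : Tendsto (fun n => (A1 P V n * A2 P V n) x) atTop (𝓝 0) := by
  refine squeeze_zero_norm (fun n => ?_) ((tendsto_A2 hP hV x).norm.trans_eq ?_)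
  · rw [mul_apply_eq_comp]
    exact norm_A1_le hP hV n _
  · simp

include hP hW hV in
theorem tendsto_A21 (x : H) : Tendsto (fun n => (A2 P V n * A1 P V n) x) atTop (𝓝 0) := by
  have h1 : Tendsto (fun n => A2 P V n (A1 P V n x - Q V x)) atTop (𝓝 0) := by
    have h2 : Tendsto (fun n => ‖A1 P V n x - Q V x‖) atTop (𝓝 0) := by
      have h := tendsto_A1 hP hV x
      rw [tendsto_iff_norm_sub_tendsto_zero] at h
      exact h
    exact squeeze_zero_norm (fun n => norm_A2_le hP hW hV n _) h2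
  have h3 := h1.add (tendsto_A2 hP hV (Q V x))
  rw [add_zero] at h3
  refine h3.congr fun n => ?_
  rw [map_sub, sub_add_cancel, mul_apply_eq_comp]

include hP hW hV in
theorem W_A12_W (n : ℕ) : W n * (A1 P V n * A2 P V n) * W n = A2 P V n * A1 P V n := by
  have e1 : A1 P V n = A1 P V n * P n := by
    rw [A1_eq hP hV, mul_assoc (P n * Q V), PP hP]
  have e2 : W n * (A1 P V n * A2 P V n) * W n = (W n * A1 P V n * W n) * (W n * A2 P V n * W n) := by
    conv_lhs => rw [e1, ← WW hP hW]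
    noncomm_ring
  rw [e2, W_A2_W hP hW hV, W_A1_W hP hW hV]

/-- Vectors whose coordinates tend to zero, and which are bounded, tend weakly to zero. -/
theorem tendsto_inner_zero {z : ℕ → H} (hz : ∀ N, ‖z N‖ ≤ 1)
    (hc : ∀ j, Tendsto (fun N => z N j) atTop (𝓝 0)) (w : H) :
    Tendsto (fun N => inner ℂ w (z N)) atTop (𝓝 0) := by
  obtain ⟨P, hP⟩ := exists_isP
  rw [Metric.tendsto_atTop]
  intro ε hε
  have h1 := tendsto_P hP w
  rw [Metric.tendsto_atTop] at h1
  obtain ⟨m, hm⟩ := h1 (ε / 2) (by positivity)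
  have h2 : Tendsto (fun N => inner ℂ (P m w) (z N)) atTop (𝓝 0) := by
    have h3 : Tendsto (fun N => ∑ k ∈ Finset.range (m + 1), (starRingEnd ℂ) (w k) * (z N) k) atTop
        (𝓝 (∑ k ∈ Finset.range (m + 1), (starRingEnd ℂ) (w k) * 0)) :=
      tendsto_finsetSum _ fun k _ => (hc k).const_mul _
    simp only [mul_zero, Finset.sum_const_zero] at h3
    refine h3.congr fun N => ?_
    rw [inner_P hP]
  rw [Metric.tendsto_atTop] at h2
  obtain ⟨N0, hN0⟩ := h2 (ε / 2) (by positivity)
  refine ⟨N0, fun N hN => ?_⟩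
  have h3 := hN0 N hN
  have h4 := hm m le_rfl
  rw [dist_zero_right] at h3 ⊢
  rw [dist_eq_norm] at h4
  have e1 : inner ℂ w (z N) = inner ℂ (P m w) (z N) - inner ℂ (P m w - w) (z N) := by
    rw [inner_sub_left]; ring
  rw [e1]
  calc ‖inner ℂ (P m w) (z N) - inner ℂ (P m w - w) (z N)‖
      ≤ ‖inner ℂ (P m w) (z N)‖ + ‖inner ℂ (P m w - w) (z N)‖ := norm_sub_le _ _
    _ ≤ ‖inner ℂ (P m w) (z N)‖ + ‖P m w - w‖ * ‖z N‖ := by
        gcongr; exact norm_inner_le_norm _ _
    _ ≤ ‖inner ℂ (P m w) (z N)‖ + ‖P m w - w‖ * 1 := by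
        gcongr; exact hz N
    _ < ε := by linarith

/-- Compact operators map weak null sequences to null sequences. -/
theorem tendsto_compact {K : H →L[ℂ] H} (hK : IsCompactOperator K) {z : ℕ → H}
    (hz : ∀ N, ‖z N‖ ≤ 1) (hc : ∀ j, Tendsto (fun N => z N j) atTop (𝓝 0)) :
    Tendsto (fun N => K (z N)) atTop (𝓝 0) := by
  have h1 : IsCompact (closure (K '' Metric.closedBall 0 1)) :=
    hK.isCompact_closure_image_closedBall 1
  refine h1.tendsto_nhds_of_unique_mapClusterPt ?_ ?_
  · refine Eventually.of_forall fun N => subset_closure ⟨z N, ?_, rfl⟩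
    simpa using hz N
  · intro y _ hy
    have h2 : ∀ w : H, inner ℂ w y = 0 := by
      intro w
      have h3 : MapClusterPt (inner ℂ w y) atTop (fun N => inner ℂ w (K (z N))) := by
        have hcont : Continuous fun y : H => inner ℂ w y := by fun_prop
        exact hy.continuousAt_comp hcont.continuousAt
      have h4 : Tendsto (fun N => inner ℂ w (K (z N))) atTop (𝓝 0) := by
        have h5 := tendsto_inner_zero hz hc (ad K w)
        refine h5.congr fun N => ?_
        rw [ContinuousLinearMap.adjoint_inner_left]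
      have h6 : (𝓝 (inner ℂ w y) ⊓ 𝓝 (0 : ℂ)).NeBot := by
        have h7 := h3
        rw [MapClusterPt, ClusterPt] at h7
        exact h7.mono (inf_le_inf_left _ h4)
      exact eq_of_nhds_neBot h6
    exact (inner_self_eq_zero (𝕜 := ℂ)).1 (h2 y)

end

end Pool.Agent.X244.FinSec
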