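import Pool.Agent.X244.TestVec

set_option autoImplicit false

open Filter Topology

namespace Pool.Agent.X244.FinSec

/-- The radii. -/
noncomputable def rr (M : ℕ) : ℝ := Real.exp (-(1 / ((M : ℝ) + 1)))

theorem rr0 (M : ℕ) : 0 ≤ rr M := (Real.exp_pos _).le

theorem rr1 (M : ℕ) : rr M < 1 := by
  unfold rr
  rw [Real.exp_lt_one_iff]
  have : 0 < 1 / ((M : ℝ) + 1) := by positivity
  linarith

theorem one_sub_rr_sq_le (M : ℕ) : 1 - rr M ^ 2 ≤ 2 / ((M : ℝ) + 1) := by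
  unfold rr
  rw [← Real.exp_nat_mul]
  have h := Real.add_one_le_exp (((2 : ℕ) : ℝ) * -(1 / ((M : ℝ) + 1)))
  have e : ((2 : ℕ) : ℝ) * -(1 / ((M : ℝ) + 1)) = - (2 / ((M : ℝ) + 1)) := by
    push_cast; ring
  rw [e] at h ⊢
  linarith

theorem one_sub_rr_le (M : ℕ) : 1 - rr M ≤ 1 / ((M : ℝ) + 1) := by
  unfold rr
  have h := Real.add_one_le_exp (-(1 / ((M : ℝ) + 1)))
  linarith

theorem le_one_sub_rr_sq (M : ℕ) : 2 / ((M : ℝ) + 3) ≤ 1 - rr M ^ 2 := by
  unfold rr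
  rw [← Real.exp_nat_mul]
  have e : ((2 : ℕ) : ℝ) * -(1 / ((M : ℝ) + 1)) = - (2 / ((M : ℝ) + 1)) := by
    push_cast; ring
  rw [e, Real.exp_neg]
  have h := Real.add_one_le_exp (2 / ((M : ℝ) + 1))
  have h1 : (0 : ℝ) < (M : ℝ) + 1 := by positivity
  have h2 : (0 : ℝ) < 2 / ((M : ℝ) + 1) + 1 := by positivity
  have h3 : (Real.exp (2 / ((M : ℝ) + 1)))⁻¹ ≤ (2 / ((M : ℝ) + 1) + 1)⁻¹ :=
    inv_anti₀ h2 h
  have h4 : (2 / ((M : ℝ) + 1) + 1)⁻¹ = 1 - 2 / ((M : ℝ) + 3) := by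
    field_simp
    ring
  linarith

theorem rr_pow (M : ℕ) : Real.exp (-3) ≤ rr M ^ (3 * M + 2) := by
  unfold rr
  rw [← Real.exp_nat_mul, Real.exp_le_exp]
  have h1 : (0 : ℝ) < (M : ℝ) + 1 := by positivity
  have e : ((3 * M + 2 : ℕ) : ℝ) * -(1 / ((M : ℝ) + 1)) = - ((3 * M + 2) / ((M : ℝ) + 1)) := by
    push_cast; ring
  rw [e, neg_le_neg_iff, div_le_iff₀ h1]
  linarith

theorem norm_Th_rr (M : ℕ) : ‖SInner.Th (rr M)‖ ≤ Real.exp (-((M : ℝ) + 1)) := by
  rw [SInner.norm_Th, Real.exp_le_exp, neg_le_neg_iff]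
  have h0 := rr0 M
  have h1 := rr1 M
  have h2 := one_sub_rr_le M
  rw [Complex.norm_real, Real.norm_of_nonneg h0]
  have e : ‖(1 : ℂ) - (rr M : ℂ)‖ = 1 - rr M := by
    rw [← Complex.ofReal_one, ← Complex.ofReal_sub, Complex.norm_real,
      Real.norm_of_nonneg (by linarith)]
  rw [e]
  have h3 : 0 < 1 - rr M := by linarith
  have h4 : (0 : ℝ) < (M : ℝ) + 1 := by positivity
  have e2 : (1 - rr M ^ 2) / (1 - rr M) ^ 2 = (1 + rr M) / (1 - rr M) := by
    field_simp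
    ring
  rw [e2, le_div_iff₀ h3]
  have h5 : ((M : ℝ) + 1) * (1 - rr M) ≤ 1 := by
    calc ((M : ℝ) + 1) * (1 - rr M) ≤ ((M : ℝ) + 1) * (1 / ((M : ℝ) + 1)) := by gcongr
      _ = 1 := by field_simp
  linarith

/-- The normalized test vectors. -/
noncomputable def tv (M : ℕ) : H :=
  ((‖gv (rr M) (rr0 M) (rr1 M)‖ : ℝ) : ℂ)⁻¹ • gv (rr M) (rr0 M) (rr1 M)

theorem norm_tv (M : ℕ) : ‖tv M‖ = 1 := by
  unfold tv
  rw [norm_smul, norm_inv, Complex.norm_real, norm_norm]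
  exact inv_mul_cancel₀ (norm_gv_pos (rr0 M) (rr1 M)).ne'

theorem tv_apply_le (M j : ℕ) : ‖(tv M) j‖ ≤ Real.sqrt (2 / ((M : ℝ) + 1)) := by
  unfold tv
  rw [lp.coeFn_smul, Pi.smul_apply, gv_apply, norm_smul, norm_inv, Complex.norm_real, norm_norm,
    norm_pow, Complex.norm_real, Real.norm_of_nonneg (rr0 M)]
  have h1 : rr M ^ j ≤ 1 := pow_le_one₀ (rr0 M) (rr1 M).le
  have h2 : (‖gv (rr M) (rr0 M) (rr1 M)‖)⁻¹ ≤ Real.sqrt (2 / ((M : ℝ) + 1)) := by
    rw [Real.le_sqrt' (inv_pos.2 (norm_gv_pos (rr0 M) (rr1 M))), sq, ← mul_inv,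
      norm_gv (rr0 M) (rr1 M), inv_inv]
    exact one_sub_rr_sq_le M
  calc (‖gv (rr M) (rr0 M) (rr1 M)‖)⁻¹ * rr M ^ j ≤ (‖gv (rr M) (rr0 M) (rr1 M)‖)⁻¹ * 1 := by
        gcongr
    _ ≤ _ := by rw [mul_one]; exact h2

theorem tendsto_sqrt : Tendsto (fun M : ℕ => Real.sqrt (2 / ((M : ℝ) + 1))) atTop (𝓝 0) := by
  have h1 : Tendsto (fun M : ℕ => 2 / ((M : ℝ) + 1)) atTop (𝓝 0) := by
    have := tendsto_const_div_atTop_nhds_zero_nat (2 : ℝ)
    exact (this.comp (tendsto_add_atTop_nat 1)).congr fun n => by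
      simp only [Function.comp]
      push_cast
      rfl
  have h2 := (Real.continuous_sqrt.tendsto 0).comp h1
  rw [Real.sqrt_zero] at h2
  exact h2

theorem not_form {P W : ℕ → (H →L[ℂ] H)} (hP : IsP P) (hW : IsW W) {V : H →L[ℂ] H}
    (hV : IsIso SInner.co V) {K K' : H →L[ℂ] H} (hK : IsCompactOperator K)
    (hK' : IsCompactOperator K') {C : ℕ → (H →L[ℂ] H)}
    (hC : Tendsto (fun n => ‖C n‖) atTop (𝓝 0))
    (hA : ∀ n, A1 P V n * A2 P V n = P n * K * P n + W n * K' * W n + C n) : False := by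
  set N : ℕ → ℕ := fun M => 3 * M + 2 with hN
  have hNt : Tendsto N atTop atTop := by
    refine tendsto_atTop_mono (fun M => ?_) tendsto_id
    simp only [hN, id]
    omega
  have h1 : Tendsto (fun M => K (W (N M) (tv M))) atTop (𝓝 0) := by
    refine tendsto_compact hK (fun M => (norm_W_le hP hW _ _).trans_eq (norm_tv M)) fun j => ?_
    refine squeeze_zero_norm (fun M => ?_) tendsto_sqrt
    rw [hW]
    split_ifs
    · exact tv_apply_le M _
    · rw [norm_zero]; positivity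
  have h2 : Tendsto (fun M => K' (P (N M) (tv M))) atTop (𝓝 0) := by
    refine tendsto_compact hK' (fun M => (norm_P_le hP _ _).trans_eq (norm_tv M)) fun j => ?_
    refine squeeze_zero_norm (fun M => ?_) tendsto_sqrt
    rw [hP]
    split_ifs
    · exact tv_apply_le M _
    · rw [norm_zero]; positivity
  have h3 : Tendsto (fun M => ‖K (W (N M) (tv M))‖ + ‖K' (P (N M) (tv M))‖ + ‖C (N M)‖) atTop
      (𝓝 0) := by
    have := (h1.norm.add h2.norm).add (hC.comp hNt)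
    simpa using this
  have h4 : ∀ᶠ M in atTop, Real.exp (-3) / 2 ≤
      ‖K (W (N M) (tv M))‖ + ‖K' (P (N M) (tv M))‖ + ‖C (N M)‖ := by
    filter_upwards [eventually_ge_atTop 5] with M hM
    have h5 := lower (rr0 M) (rr1 M) hP hW hV (N M) (SInner.hasSum_co (rr0 M) (rr1 M))
    change _ ≤ ‖inner ℂ ((A1 P V (N M) * A2 P V (N M)) (W (N M) (tv M))) (tv M)‖ at h5
    have h6 : ‖inner ℂ ((A1 P V (N M) * A2 P V (N M)) (W (N M) (tv M))) (tv M)‖ ≤
        ‖K (W (N M) (tv M))‖ + ‖K' (P (N M) (tv M))‖ + ‖C (N M)‖ := by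
      refine (norm_inner_le_norm _ _).trans ?_
      rw [norm_tv, mul_one, hA]
      have e1 : (P (N M) * K * P (N M) + W (N M) * K' * W (N M) + C (N M)) (W (N M) (tv M)) =
          P (N M) (K (W (N M) (tv M))) + W (N M) (K' (P (N M) (tv M))) +
            C (N M) (W (N M) (tv M)) := by
        rw [_root_.add_apply, _root_.add_apply]
        simp only [mul_apply_eq_comp]
        rw [← mul_apply_eq_comp (P (N M)) (W (N M)) (tv M), PW hP hW,
          ← mul_apply_eq_comp (W (N M)) (W (N M)) (tv M), WW hP hW]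
      rw [e1]
      refine (norm_add_le _ _).trans ?_
      refine add_le_add ((norm_add_le _ _).trans (add_le_add (norm_P_le hP _ _)
        (norm_W_le hP hW _ _))) ?_
      calc ‖C (N M) (W (N M) (tv M))‖ ≤ ‖C (N M)‖ * ‖W (N M) (tv M)‖ := (C (N M)).le_opNorm _
        _ ≤ ‖C (N M)‖ * 1 := by
          gcongr
          exact (norm_W_le hP hW _ _).trans_eq (norm_tv M)
        _ = _ := mul_one _
    refine le_trans ?_ (h5.trans h6)
    have h7 := rr_pow M
    have h8 := norm_Th_rr M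
    have h9 := le_one_sub_rr_sq M
    have h10 : rr M ^ (N M + 1) ≤ rr M ^ (N M) := pow_le_pow_of_le_one (rr0 M) (rr1 M).le (by omega)
    have hM' : (5 : ℝ) ≤ M := by exact_mod_cast hM
    have h11 : 3 ≤ (((N M : ℕ) : ℝ) + 1) * (1 - rr M ^ 2) := by
      have e1 : (((N M : ℕ) : ℝ) + 1) = 3 * ((M : ℝ) + 1) := by
        simp only [hN]; push_cast; ring
      rw [e1]
      calc (3 : ℝ) ≤ 3 * ((M : ℝ) + 1) * (2 / ((M : ℝ) + 3)) := by
            rw [mul_div_assoc', le_div_iff₀ (by positivity)]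
            linarith
        _ ≤ _ := by gcongr
    have h12 : rr M ^ (N M) * 3 ≤ (((N M : ℕ) : ℝ) + 1) * rr M ^ (N M) * (1 - rr M ^ 2) := by
      have := mul_le_mul_of_nonneg_left h11 (pow_nonneg (rr0 M) (N M))
      linarith
    have h13 : Real.exp (-((M : ℝ) + 1)) ≤ Real.exp (-3) / 4 := by
      have e1 : -((M : ℝ) + 1) = -3 + (2 - (M : ℝ)) := by ring
      rw [e1, Real.exp_add]
      have h14 : Real.exp (2 - (M : ℝ)) ≤ 1 / 4 := by
        have h15 : Real.exp (2 - (M : ℝ)) ≤ Real.exp (-3) := Real.exp_le_exp.2 (by linarith)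
        refine h15.trans ?_
        rw [Real.exp_neg, one_div]
        refine inv_anti₀ (by norm_num) ?_
        have := Real.add_one_le_exp (3 : ℝ)
        linarith
      have h16 := Real.exp_pos (-3)
      nlinarith
    simp only [hN] at h10 h12 ⊢
    linarith
  have h5 := ge_of_tendsto h3 h4
  have h6 := Real.exp_pos (-3)
  linarith

end Pool.Agent.X244.FinSec
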