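import Mathlib

/-!
# A lower bound for a sum of logarithms

If at most `c k²` of the `m` positive integers `M a` are at most `k`, for every `k`, then the
average of `log (M a)` is at least `(log m - log (4 c)) / 2`.
-/

set_option autoImplicit false

namespace Pool.Agent.X244

theorem telescope (M : ℕ) (hM : 1 ≤ M) (n : ℕ) :
    ∑ k ∈ Finset.Ico M (M + n), (1 / ((k : ℝ) * (k + 1))) = 1 / (M : ℝ) - 1 / ((M + n : ℕ) : ℝ) := by
  induction n with
  | zero => simp
  | succ n ih =>
    rw [← add_assoc, Finset.sum_Ico_succ_top (by omega), ih]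
    have h1 : (0 : ℝ) < ((M + n : ℕ) : ℝ) := by exact_mod_cast (by omega : 0 < M + n)
    have h2 : ((M + n + 1 : ℕ) : ℝ) = ((M + n : ℕ) : ℝ) + 1 := by push_cast; ring
    rw [h2]
    field_simp
    ring

theorem inv_le (K M : ℕ) (hM : 1 ≤ M) :
    1 / (M : ℝ) ≤ 1 / ((K : ℝ) + 1) +
      ∑ k ∈ (Finset.Icc 1 K).filter (fun k => M ≤ k), (1 / ((k : ℝ) * (k + 1))) := by
  have hpos : ∀ k ∈ (Finset.Icc 1 K).filter (fun k => M ≤ k), 0 ≤ (1 / ((k : ℝ) * (k + 1))) :=
    fun k _ => by positivity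
  by_cases h : M ≤ K
  · have e : (Finset.Icc 1 K).filter (fun k => M ≤ k) = Finset.Ico M (M + (K + 1 - M)) := by
      ext k
      simp only [Finset.mem_filter, Finset.mem_Icc, Finset.mem_Ico]
      omega
    rw [e, telescope M hM, show M + (K + 1 - M) = K + 1 by omega]
    push_cast
    linarith
  · have h1 : 0 ≤ ∑ k ∈ (Finset.Icc 1 K).filter (fun k => M ≤ k), (1 / ((k : ℝ) * (k + 1))) :=
      Finset.sum_nonneg hpos
    have h2 : 1 / (M : ℝ) ≤ 1 / ((K : ℝ) + 1) := by
      apply one_div_le_one_div_of_le (by positivity)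
      exact_mod_cast (by omega : K + 1 ≤ M)
    linarith

theorem sum_inv_le {ι : Type*} (s : Finset ι) (M : ι → ℕ) (c : ℝ) (hc : 0 < c)
    (hM : ∀ a ∈ s, 1 ≤ M a)
    (hC : ∀ k : ℕ, ((s.filter (fun a => M a ≤ k)).card : ℝ) ≤ c * (k : ℝ) ^ 2) :
    ∑ a ∈ s, 1 / (M a : ℝ) ≤ 2 * Real.sqrt (c * s.card) := by
  classical
  set m : ℝ := (s.card : ℝ) with hm
  have hm0 : 0 ≤ m := by positivity
  set K : ℕ := ⌊Real.sqrt (m / c)⌋₊ with hK
  have h1 : ∑ a ∈ s, 1 / (M a : ℝ) ≤ m / ((K : ℝ) + 1) + c * K := by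
    calc ∑ a ∈ s, 1 / (M a : ℝ)
        ≤ ∑ a ∈ s, (1 / ((K : ℝ) + 1) +
          ∑ k ∈ (Finset.Icc 1 K).filter (fun k => M a ≤ k), (1 / ((k : ℝ) * (k + 1)))) :=
          Finset.sum_le_sum fun a ha => inv_le K (M a) (hM a ha)
      _ = m / ((K : ℝ) + 1) + ∑ a ∈ s, ∑ k ∈ Finset.Icc 1 K,
          if M a ≤ k then (1 / ((k : ℝ) * (k + 1))) else 0 := by
          rw [Finset.sum_add_distrib, Finset.sum_const, nsmul_eq_mul, ← hm]
          congr 1
          · ring
          · refine Finset.sum_congr rfl fun a _ => ?_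
            rw [Finset.sum_filter]
      _ = m / ((K : ℝ) + 1) + ∑ k ∈ Finset.Icc 1 K,
          ((s.filter (fun a => M a ≤ k)).card : ℝ) * (1 / ((k : ℝ) * (k + 1))) := by
          rw [Finset.sum_comm]
          congr 1
          refine Finset.sum_congr rfl fun k _ => ?_
          rw [← Finset.sum_filter, Finset.sum_const, nsmul_eq_mul]
      _ ≤ m / ((K : ℝ) + 1) + ∑ k ∈ Finset.Icc 1 K, c := by
          gcongr with k hk
          have hk1 : (1 : ℝ) ≤ k := by exact_mod_cast (Finset.mem_Icc.1 hk).1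
          calc ((s.filter (fun a => M a ≤ k)).card : ℝ) * (1 / ((k : ℝ) * (k + 1)))
              ≤ (c * (k : ℝ) ^ 2) * (1 / ((k : ℝ) * (k + 1))) := by
                gcongr
                exact hC k
            _ = c * (k / (k + 1)) := by field_simp
            _ ≤ c * 1 := by
                gcongr
                rw [div_le_one (by positivity)]
                linarith
            _ = c := mul_one c
      _ = m / ((K : ℝ) + 1) + c * K := by
          rw [Finset.sum_const, Nat.card_Icc, nsmul_eq_mul]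
          simp [mul_comm]
  have h2 : (K : ℝ) ≤ Real.sqrt (m / c) := Nat.floor_le (Real.sqrt_nonneg _)
  have h3 : Real.sqrt (m / c) < (K : ℝ) + 1 := Nat.lt_floor_add_one _
  have h4 : c * K ≤ Real.sqrt (c * m) := by
    calc c * K ≤ c * Real.sqrt (m / c) := by gcongr
      _ = Real.sqrt (c * m) := by
        rw [show c * m = c ^ 2 * (m / c) by field_simp, Real.sqrt_mul (by positivity),
          Real.sqrt_sq hc.le]
  have h5 : m / ((K : ℝ) + 1) ≤ Real.sqrt (c * m) := by
    rcases hm0.eq_or_lt with h0 | h0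
    · rw [← h0]; simp
    · have hsq : 0 < Real.sqrt (m / c) := Real.sqrt_pos.2 (by positivity)
      calc m / ((K : ℝ) + 1) ≤ m / Real.sqrt (m / c) := by gcongr
        _ = Real.sqrt (c * m) := by
          rw [div_eq_iff hsq.ne', ← Real.sqrt_mul (by positivity),
            show c * m * (m / c) = m ^ 2 by field_simp, Real.sqrt_sq hm0]
  linarith

theorem sum_log_ge {ι : Type*} (s : Finset ι) (M : ι → ℕ) (c : ℝ) (hc : 0 < c)
    (hs : 0 < s.card) (hM : ∀ a ∈ s, 1 ≤ M a)
    (hC : ∀ k : ℕ, ((s.filter (fun a => M a ≤ k)).card : ℝ) ≤ c * (k : ℝ) ^ 2) :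
    (s.card : ℝ) * (1 / 2 * Real.log s.card - 1 / 2 * Real.log (4 * c)) ≤
      ∑ a ∈ s, Real.log (M a) := by
  set m : ℝ := (s.card : ℝ) with hm
  have hm0 : 0 < m := by rw [hm]; exact_mod_cast hs
  set D : ℝ := Real.sqrt (m / (4 * c)) with hD
  have hD0 : 0 < D := Real.sqrt_pos.2 (by positivity)
  have h1 : ∀ a ∈ s, Real.log D + 1 - D * (1 / (M a : ℝ)) ≤ Real.log (M a) := by
    intro a ha
    have hMa : (0 : ℝ) < M a := by exact_mod_cast hM a ha
    have h2 := Real.log_le_sub_one_of_pos (show 0 < D / (M a : ℝ) by positivity)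
    rw [Real.log_div hD0.ne' hMa.ne'] at h2
    have : D / (M a : ℝ) = D * (1 / (M a : ℝ)) := by ring
    linarith
  have h2 := Finset.sum_le_sum h1
  rw [Finset.sum_sub_distrib, Finset.sum_const, nsmul_eq_mul, ← Finset.mul_sum, ← hm] at h2
  have h3 := sum_inv_le s M c hc hM hC
  have h4 : D * ∑ a ∈ s, 1 / (M a : ℝ) ≤ m := by
    calc D * ∑ a ∈ s, 1 / (M a : ℝ) ≤ D * (2 * Real.sqrt (c * m)) := by gcongr
      _ = m := by
        rw [hD, mul_left_comm, ← Real.sqrt_mul (by positivity),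
          show m / (4 * c) * (c * m) = (m / 2) ^ 2 by field_simp; ring, Real.sqrt_sq (by positivity)]
        ring
  have h5 : Real.log D = 1 / 2 * Real.log m - 1 / 2 * Real.log (4 * c) := by
    rw [hD, Real.log_sqrt (by positivity), Real.log_div hm0.ne' (by positivity)]
    ring
  rw [h5] at h2
  linarith

end Pool.Agent.X244
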