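import Mathlib

/-!
# The singular inner function `exp (-(1 + z) / (1 - z))` and its Fourier coefficients
-/

set_option autoImplicit false

open MeasureTheory Filter Topology Complex AddCircle

namespace Pool.Agent.X244.SInner

/-- The singular inner function. -/
noncomputable def Th (z : ℂ) : ℂ := Complex.exp (-((1 + z) / (1 - z)))

theorem re_frac (z : ℂ) : (((1 + z) / (1 - z)).re) = (1 - ‖z‖ ^ 2) / ‖1 - z‖ ^ 2 := by
  rw [Complex.div_re, ← Complex.normSq_eq_norm_sq, ← Complex.normSq_eq_norm_sq, ← add_div]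
  congr 1
  simp only [Complex.normSq_apply, Complex.add_re, Complex.sub_re, Complex.add_im, Complex.sub_im,
    Complex.one_re, Complex.one_im]
  ring

theorem norm_Th (z : ℂ) : ‖Th z‖ = Real.exp (-((1 - ‖z‖ ^ 2) / ‖1 - z‖ ^ 2)) := by
  unfold Th
  rw [Complex.norm_exp, Complex.neg_re, re_frac]

theorem norm_Th_le (z : ℂ) (hz : ‖z‖ ≤ 1) : ‖Th z‖ ≤ 1 := by
  rw [norm_Th, Real.exp_le_one_iff, neg_nonpos]
  have : ‖z‖ ^ 2 ≤ 1 := pow_le_one₀ (norm_nonneg _) hz
  exact div_nonneg (by linarith) (by positivity)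

theorem norm_Th_eq (z : ℂ) (hz : ‖z‖ = 1) : ‖Th z‖ = 1 := by
  rw [norm_Th, hz]
  simp

theorem Th_conj (z : ℂ) : Th ((starRingEnd ℂ) z) = (starRingEnd ℂ) (Th z) := by
  unfold Th
  rw [← Complex.exp_conj]
  simp

theorem measurable_Th : Measurable Th := by
  unfold Th
  fun_prop

theorem differentiableOn_Th : DifferentiableOn ℂ Th (Metric.ball 0 1) := by
  intro z hz
  have : (1 : ℂ) - z ≠ 0 := by
    intro h
    rw [sub_eq_zero] at h
    rw [mem_ball_zero_iff, ← h] at hz
    simp at hz
  unfold Th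
  fun_prop (disch := assumption)

theorem continuousAt_Th {z : ℂ} (h : z ≠ 1) : ContinuousAt Th z := by
  have : (1 : ℂ) - z ≠ 0 := sub_ne_zero.2 (Ne.symm h)
  unfold Th
  fun_prop (disch := assumption)

/-- The Taylor coefficients. -/
noncomputable def tc (m : ℕ) : ℂ := (m.factorial : ℂ)⁻¹ * iteratedDeriv m Th 0

theorem hasSum_Th {z : ℂ} (hz : ‖z‖ < 1) : HasSum (fun m : ℕ => tc m * z ^ m) (Th z) := by
  have h := Complex.hasSum_taylorSeries_on_ball differentiableOn_Th
    (by simpa using hz : z ∈ Metric.ball (0 : ℂ) 1)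
  have e : (fun m : ℕ => tc m * z ^ m) = fun n : ℕ => ((n.factorial : ℂ))⁻¹ • (z - 0) ^ n •
      iteratedDeriv n Th 0 := by
    funext m
    simp only [tc, sub_zero, smul_eq_mul]
    ring
  rw [e]
  exact h

theorem fourier_pow (m : ℕ) (x : AddCircle (1 : ℝ)) :
    (fourier 1 x : ℂ) ^ m = fourier (m : ℤ) x := by
  induction m with
  | zero => simp
  | succ m ih => rw [pow_succ, ih, Nat.cast_succ, fourier_add]

theorem norm_fourier (n : ℤ) (x : AddCircle (1 : ℝ)) : ‖(fourier n x : ℂ)‖ = 1 := by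
  rw [fourier_apply]
  exact Circle.norm_coe _

/-- The boundary function of radius `r`. -/
noncomputable def bf (r : ℝ) (x : AddCircle (1 : ℝ)) : ℂ := Th (r * fourier 1 x)

theorem measurable_bf (r : ℝ) : Measurable (bf r) := by
  refine measurable_Th.comp ?_
  exact ((fourier 1 : C(AddCircle (1 : ℝ), ℂ)).continuous.measurable).const_mul _

theorem norm_bf_le {r : ℝ} (h0 : 0 ≤ r) (h1 : r ≤ 1) (x : AddCircle (1 : ℝ)) : ‖bf r x‖ ≤ 1 := by
  refine norm_Th_le _ ?_
  rw [norm_mul, norm_fourier, mul_one, Complex.norm_real, Real.norm_of_nonneg h0]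
  exact h1

theorem norm_bf_one (x : AddCircle (1 : ℝ)) : ‖bf 1 x‖ = 1 := by
  refine norm_Th_eq _ ?_
  rw [norm_mul, norm_fourier, mul_one]
  simp

theorem hasSum_bf {r : ℝ} (h0 : 0 ≤ r) (h1 : r < 1) (x : AddCircle (1 : ℝ)) :
    HasSum (fun m : ℕ => tc m * (r : ℂ) ^ m * fourier (m : ℤ) x) (bf r x) := by
  have h : ‖(r : ℂ) * fourier 1 x‖ < 1 := by
    rw [norm_mul, norm_fourier, mul_one, Complex.norm_real, Real.norm_of_nonneg h0]
    exact h1
  have e : (fun m : ℕ => tc m * (r : ℂ) ^ m * fourier (m : ℤ) x) =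
      fun m : ℕ => tc m * ((r : ℂ) * fourier 1 x) ^ m := by
    funext m
    rw [mul_pow, fourier_pow, mul_assoc]
  rw [e]
  exact hasSum_Th h

theorem summable_tc {r : ℝ} (h0 : 0 ≤ r) (h1 : r < 1) : Summable (fun m : ℕ => ‖tc m * (r : ℂ) ^ m‖) := by
  have h : ‖(r : ℂ)‖ < 1 := by
    rw [Complex.norm_real, Real.norm_of_nonneg h0]
    exact h1
  exact (hasSum_Th h).summable.norm

theorem fourierCoeff_bf_lt {r : ℝ} (h0 : 0 ≤ r) (h1 : r < 1) (k : ℤ) :
    fourierCoeff (bf r) k = if 0 ≤ k then tc k.toNat * (r : ℂ) ^ k.toNat else 0 := by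
  have hcont : ∀ m : ℤ, Continuous (fun x : AddCircle (1 : ℝ) => (fourier m x : ℂ)) := fun m =>
    (fourier m : C(AddCircle (1 : ℝ), ℂ)).continuous
  have hF1 : ∀ m : ℕ, Integrable (fun x : AddCircle (1 : ℝ) =>
      (fourier (-k) x : ℂ) * (tc m * (r : ℂ) ^ m * fourier (m : ℤ) x)) haarAddCircle := by
    intro m
    refine Continuous.integrable_of_hasCompactSupport ?_ ?_
    · exact (hcont _).mul (continuous_const.mul (hcont _))
    · exact HasCompactSupport.of_compactSpace _
  have hF2 : Summable fun m : ℕ => ∫ x : AddCircle (1 : ℝ),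
      ‖(fourier (-k) x : ℂ) * (tc m * (r : ℂ) ^ m * fourier (m : ℤ) x)‖ ∂haarAddCircle := by
    have : ∀ m : ℕ, ∫ x : AddCircle (1 : ℝ),
      ‖(fourier (-k) x : ℂ) * (tc m * (r : ℂ) ^ m * fourier (m : ℤ) x)‖ ∂haarAddCircle =
        ‖tc m * (r : ℂ) ^ m‖ := by
      intro m
      have : ∀ x : AddCircle (1 : ℝ),
        ‖(fourier (-k) x : ℂ) * (tc m * (r : ℂ) ^ m * fourier (m : ℤ) x)‖ =
          ‖tc m * (r : ℂ) ^ m‖ := by
        intro x
        rw [norm_mul, norm_mul, norm_fourier, norm_fourier, one_mul, mul_one]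
      simp_rw [this]
      simp
    simp_rw [this]
    exact summable_tc h0 h1
  have hF := hasSum_integral_of_summable_integral_norm hF1 hF2
  have e1 : ∀ x : AddCircle (1 : ℝ),
      ∑' m : ℕ, (fourier (-k) x : ℂ) * (tc m * (r : ℂ) ^ m * fourier (m : ℤ) x) =
        fourier (-k) x * bf r x := by
    intro x
    exact ((hasSum_bf h0 h1 x).mul_left _).tsum_eq
  simp_rw [e1] at hF
  have e2 : ∀ m : ℕ, ∫ x : AddCircle (1 : ℝ),
      (fourier (-k) x : ℂ) * (tc m * (r : ℂ) ^ m * fourier (m : ℤ) x) ∂haarAddCircle =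
        tc m * (r : ℂ) ^ m * (if k = (m : ℤ) then 1 else 0) := by
    intro m
    have h := congrFun (fourierCoeff_fourier (T := 1) (m : ℤ)) k
    unfold fourierCoeff at h
    rw [Pi.single_apply] at h
    rw [← h, ← integral_const_mul]
    refine integral_congr_ae (Eventually.of_forall fun x => ?_)
    simp only [smul_eq_mul]
    ring
  simp_rw [e2] at hF
  have e3 : fourierCoeff (bf r) k = ∫ x : AddCircle (1 : ℝ), fourier (-k) x * bf r x ∂haarAddCircle := rfl
  rw [e3]
  refine hF.unique ?_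
  split_ifs with hk
  · obtain ⟨m, rfl⟩ := Int.eq_ofNat_of_zero_le hk
    have h := hasSum_ite_eq m (tc m * (r : ℂ) ^ m)
    have e : (fun b' : ℕ => if b' = m then tc m * (r : ℂ) ^ m else 0) =
        fun b : ℕ => tc b * (r : ℂ) ^ b * (if ((m : ℕ) : ℤ) = (b : ℤ) then 1 else 0) := by
      funext b
      by_cases hb : b = m
      · subst hb; simp
      · have hb' : ¬ ((m : ℤ) = (b : ℤ)) := fun h => hb (by exact_mod_cast h.symm)
        simp only [hb, hb', if_false, mul_zero]
    rw [e] at h
    simpa using h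
  · have e : (fun b : ℕ => tc b * (r : ℂ) ^ b * (if k = (b : ℤ) then (1 : ℂ) else 0)) =
        fun _ => 0 := by
      funext b
      have hb' : ¬ (k = (b : ℤ)) := fun h => hk (by omega)
      simp only [hb', if_false, mul_zero]
    rw [e]
    exact hasSum_zero

theorem haar_zero : (haarAddCircle : Measure (AddCircle (1 : ℝ))) {0} = 0 := by
  have : Nontrivial (AddCircle (1 : ℝ)) := by
    refine ⟨((1 / 2 : ℝ) : AddCircle (1 : ℝ)), 0, ?_⟩
    rw [Ne, AddCircle.coe_eq_zero_iff]
    rintro ⟨n, hn⟩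
    rw [zsmul_eq_mul, mul_one] at hn
    have h2 : (2 * n : ℝ) = 1 := by rw [hn]; norm_num
    have h3 : (2 * n : ℤ) = 1 := by exact_mod_cast h2
    omega
  have : (𝓝[≠] (0 : AddCircle (1 : ℝ))).NeBot := by infer_instance
  exact measure_singleton 0

/-- The Fourier coefficients of the singular inner function. -/
noncomputable def co (k : ℤ) : ℂ := if 0 ≤ k then tc k.toNat else 0

theorem fourierCoeff_bf_one (k : ℤ) : fourierCoeff (bf 1) k = co k := by
  -- `r n → 1`
  set r : ℕ → ℝ := fun n => 1 - 1 / ((n : ℝ) + 2) with hr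
  have hr0 : ∀ n, 0 ≤ r n := by
    intro n
    have : 1 / ((n : ℝ) + 2) ≤ 1 := by
      rw [div_le_one (by positivity)]
      have : (0 : ℝ) ≤ n := n.cast_nonneg
      linarith
    simp only [hr]
    linarith
  have hr1 : ∀ n, r n < 1 := by
    intro n
    have : 0 < 1 / ((n : ℝ) + 2) := by positivity
    simp only [hr]
    linarith
  have hrl : Tendsto r atTop (𝓝 1) := by
    have h1 : Tendsto (fun n : ℕ => 1 / ((n : ℝ) + 2)) atTop (𝓝 0) := by
      have := tendsto_const_div_atTop_nhds_zero_nat (1 : ℝ)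
      exact (this.comp (tendsto_add_atTop_nat 2)).congr fun n => by
        simp only [Function.comp]
        push_cast
        rfl
    have h2 := h1.const_sub 1
    rw [sub_zero] at h2
    exact h2
  have hlim : Tendsto (fun n => fourierCoeff (bf (r n)) k) atTop (𝓝 (fourierCoeff (bf 1) k)) := by
    unfold fourierCoeff
    refine tendsto_integral_of_dominated_convergence (fun _ => 1) ?_ ?_ ?_ ?_
    · intro n
      refine Measurable.aestronglyMeasurable ?_
      exact ((fourier (-k) : C(AddCircle (1 : ℝ), ℂ)).continuous.measurable).smul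
        (measurable_bf _)
    · exact integrable_const _
    · intro n
      refine Eventually.of_forall fun x => ?_
      rw [norm_smul, norm_fourier, one_mul]
      exact norm_bf_le (hr0 n) (hr1 n).le x
    · have h1 : ∀ᵐ x : AddCircle (1 : ℝ) ∂haarAddCircle, x ≠ 0 := by
        rw [ae_iff]
        simpa using haar_zero
      filter_upwards [h1] with x hx
      refine Tendsto.const_smul ?_ _
      have hx1 : (fourier 1 x : ℂ) ≠ 1 := by
        intro h
        apply hx
        rw [fourier_one] at h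
        have h2 : toCircle x = toCircle (0 : AddCircle (1 : ℝ)) := by
          rw [toCircle_zero]
          ext
          rw [h]; rfl
        exact injective_toCircle one_ne_zero h2
      unfold bf
      have h2 : ContinuousAt (fun s : ℝ => Th (s * fourier 1 x)) 1 := by
        have h3 : ContinuousAt Th (((1 : ℝ) : ℂ) * fourier 1 x) := by
          refine continuousAt_Th ?_
          simpa using hx1
        exact ContinuousAt.comp (f := fun s : ℝ => (s : ℂ) * fourier 1 x) h3 (by fun_prop)
      exact h2.tendsto.comp hrl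
  have hlim2 : Tendsto (fun n => fourierCoeff (bf (r n)) k) atTop (𝓝 (co k)) := by
    have e : (fun n => fourierCoeff (bf (r n)) k) = fun n => if 0 ≤ k then tc k.toNat *
        ((r n : ℝ) : ℂ) ^ k.toNat else 0 := by
      funext n
      exact fourierCoeff_bf_lt (hr0 n) (hr1 n) k
    rw [e]
    unfold co
    split_ifs with hk
    · have h1 : Tendsto (fun n => ((r n : ℝ) : ℂ) ^ k.toNat) atTop (𝓝 (((1 : ℝ) : ℂ) ^ k.toNat)) :=
        ((Complex.continuous_ofReal.tendsto _).comp hrl).pow _
      have h2 := h1.const_mul (tc k.toNat)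
      simpa using h2
    · exact tendsto_const_nhds
  exact tendsto_nhds_unique hlim hlim2

theorem co_neg {k : ℤ} (hk : k < 0) : co k = 0 := by
  unfold co
  rw [if_neg (by omega)]

theorem hasSum_co {r : ℝ} (h0 : 0 ≤ r) (h1 : r < 1) :
    HasSum (fun m : ℕ => co m * (r : ℂ) ^ m) (Th r) := by
  have h : ‖(r : ℂ)‖ < 1 := by
    rw [Complex.norm_real, Real.norm_of_nonneg h0]
    exact h1
  have h2 := hasSum_Th h
  simpa [co] using h2

theorem bf_one_neg (x : AddCircle (1 : ℝ)) : bf 1 (-x) = (starRingEnd ℂ) (bf 1 x) := by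
  unfold bf
  rw [← Th_conj, map_mul, Complex.conj_ofReal]
  congr 2
  rw [← fourier_neg, fourier_apply, fourier_apply]
  simp

theorem conj_fourierCoeff (f : AddCircle (1 : ℝ) → ℂ) (k : ℤ) :
    fourierCoeff (fun x => (starRingEnd ℂ) (f x)) k = (starRingEnd ℂ) (fourierCoeff f (-k)) := by
  unfold fourierCoeff
  rw [← integral_conj]
  refine integral_congr_ae (Eventually.of_forall fun x => ?_)
  simp only [smul_eq_mul, map_mul, neg_neg]
  rw [fourier_neg]

theorem conj_co (k : ℤ) : (starRingEnd ℂ) (co k) = co k := by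
  have h1 := conj_fourierCoeff (bf 1) (-k)
  rw [neg_neg, fourierCoeff_bf_one] at h1
  rw [← h1, ← fourierCoeff_bf_one]
  unfold fourierCoeff
  have h2 := integral_neg_eq_self (fun x : AddCircle (1 : ℝ) => (fourier (-k) x : ℂ) • bf 1 x)
    haarAddCircle
  rw [← h2]
  refine integral_congr_ae (Eventually.of_forall fun x => ?_)
  simp only [smul_eq_mul]
  rw [bf_one_neg]
  congr 1
  rw [fourier_apply, fourier_apply]
  simp

/-- The shifted boundary function. -/
noncomputable def gk (k : ℤ) (x : AddCircle (1 : ℝ)) : ℂ := fourier k x * bf 1 x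

theorem measurable_gk (k : ℤ) : Measurable (gk k) :=
  ((fourier k : C(AddCircle (1 : ℝ), ℂ)).continuous.measurable).mul (measurable_bf _)

theorem norm_gk (k : ℤ) (x : AddCircle (1 : ℝ)) : ‖gk k x‖ = 1 := by
  unfold gk
  rw [norm_mul, norm_fourier, norm_bf_one, one_mul]

theorem memLp_gk (k : ℤ) : MemLp (gk k) 2 (haarAddCircle : Measure (AddCircle (1 : ℝ))) :=
  MemLp.of_bound (measurable_gk k).aestronglyMeasurable 1
    (Eventually.of_forall fun x => (norm_gk k x).le)

theorem fourierCoeff_gk (k j : ℤ) : fourierCoeff (gk k) j = co (j - k) := by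
  rw [← fourierCoeff_bf_one]
  unfold fourierCoeff gk
  refine integral_congr_ae (Eventually.of_forall fun x => ?_)
  simp only [smul_eq_mul]
  rw [← mul_assoc, ← fourier_add]
  congr 2
  ring_nf

theorem hasSum_inner_int (k l : ℤ) :
    HasSum (fun j : ℤ => (starRingEnd ℂ) (co (j - k)) * co (j - l)) (if k = l then 1 else 0) := by
  have h := (fourierBasis (T := (1 : ℝ))).hasSum_inner_mul_inner ((memLp_gk k).toLp) ((memLp_gk l).toLp)
  have e1 : ∀ (k j : ℤ), inner ℂ ((fourierBasis (T := (1 : ℝ))) j) ((memLp_gk k).toLp) = co (j - k) := by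
    intro k j
    rw [← HilbertBasis.repr_apply_apply, fourierBasis_repr, ← fourierCoeff_gk]
    exact congrFun (fourierCoeff_congr_ae (MemLp.coeFn_toLp (memLp_gk k))) j
  have e2 : ∀ (k j : ℤ), inner ℂ ((memLp_gk k).toLp) ((fourierBasis (T := (1 : ℝ))) j) =
      (starRingEnd ℂ) (co (j - k)) := by
    intro k j
    rw [← e1, inner_conj_symm]
  simp_rw [e1, e2] at h
  rw [L2.inner_def] at h
  have e3 : ∫ x : AddCircle (1 : ℝ), inner ℂ (((memLp_gk k).toLp : Lp ℂ 2 haarAddCircle) x)
      (((memLp_gk l).toLp : Lp ℂ 2 haarAddCircle) x) ∂haarAddCircle =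
      fourierCoeff (fourier (T := (1 : ℝ)) l) k := by
    unfold fourierCoeff
    refine integral_congr_ae ?_
    filter_upwards [MemLp.coeFn_toLp (memLp_gk k), MemLp.coeFn_toLp (memLp_gk l)] with x h1 h2
    rw [h1, h2]
    simp only [RCLike.inner_apply, smul_eq_mul]
    unfold gk
    have h3 : bf 1 x * (starRingEnd ℂ) (bf 1 x) = 1 := by
      rw [Complex.mul_conj, Complex.normSq_eq_norm_sq, norm_bf_one]
      simp
    rw [map_mul, fourier_neg]
    linear_combination ((fourier l x : ℂ) * (starRingEnd ℂ) (fourier k x)) * h3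
  rw [e3, fourierCoeff_fourier, Pi.single_apply] at h
  exact h

theorem hasSum_inner_nat (k l : ℕ) :
    HasSum (fun j : ℕ => (starRingEnd ℂ) (co ((j : ℤ) - k)) * co ((j : ℤ) - l))
      (if k = l then 1 else 0) := by
  have h := hasSum_inner_int k l
  have h2 := (Function.Injective.hasSum_iff (f := fun j : ℤ =>
    (starRingEnd ℂ) (co (j - k)) * co (j - l)) (a := (if (k : ℤ) = l then (1 : ℂ) else 0))
    (Nat.cast_injective (R := ℤ)) ?_).2 h
  · have e : (if k = l then (1 : ℂ) else 0) = if (k : ℤ) = (l : ℤ) then 1 else 0 := by simp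
    rw [e]
    exact h2
  · intro x hx
    have : x < 0 := by
      by_contra h3
      exact hx ⟨x.toNat, by omega⟩
    rw [co_neg (k := x - l) (by omega), mul_zero]

end Pool.Agent.X244.SInner
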