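import Pool.Agent.X244.FinSec
import Pool.Agent.X244.SInner

set_option autoImplicit false

open Filter Topology

namespace Pool.Agent.X244.FinSec

theorem hasSum_geom_sq {r : ℝ} (h0 : 0 ≤ r) (h1 : r < 1) :
    HasSum (fun j : ℕ => r ^ j * r ^ j) ((1 - r ^ 2)⁻¹) := by
  have h2 : r ^ 2 < 1 := by nlinarith
  have h := hasSum_geometric_of_lt_one (sq_nonneg r) h2
  have e : (fun j : ℕ => r ^ j * r ^ j) = fun j : ℕ => (r ^ 2) ^ j := by
    funext j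
    rw [← pow_mul, ← pow_add]
    congr 1
    ring
  rw [e]
  exact h

/-- The geometric vector. -/
noncomputable def gv (r : ℝ) (h0 : 0 ≤ r) (h1 : r < 1) : H :=
  ⟨fun j => ((r : ℂ)) ^ j, by
    refine memℓp_gen ?_
    have h := (hasSum_geom_sq h0 h1).summable
    refine h.congr fun j => ?_
    simp only [ENNReal.toReal_ofNat, Real.rpow_ofNat]
    rw [norm_pow, Complex.norm_real, Real.norm_of_nonneg h0]
    ring⟩

section
variable {r : ℝ} (h0 : 0 ≤ r) (h1 : r < 1)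

theorem gv_apply (j : ℕ) : (gv r h0 h1) j = (r : ℂ) ^ j := rfl

theorem inner_gv : inner ℂ (gv r h0 h1) (gv r h0 h1) = (((1 - r ^ 2)⁻¹ : ℝ) : ℂ) := by
  refine (lp.hasSum_inner (gv r h0 h1) (gv r h0 h1)).unique ?_
  have h := (Complex.hasSum_ofReal.2 (hasSum_geom_sq h0 h1))
  have e : (fun i : ℕ => inner ℂ ((gv r h0 h1) i) ((gv r h0 h1) i)) =
      fun j : ℕ => ((r ^ j * r ^ j : ℝ) : ℂ) := by
    funext j
    rw [gv_apply, RCLike.inner_apply]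
    simp
  rw [e]
  exact h

theorem norm_gv : ‖gv r h0 h1‖ * ‖gv r h0 h1‖ = (1 - r ^ 2)⁻¹ := by
  have h2 : r ^ 2 < 1 := by nlinarith
  rw [← norm_inner_self', inner_gv, Complex.norm_real, Real.norm_of_nonneg]
  exact (inv_pos.2 (by linarith)).le

theorem norm_gv_pos : 0 < ‖gv r h0 h1‖ := by
  have h2 : r ^ 2 < 1 := by nlinarith
  have h3 := norm_gv h0 h1
  have h4 : 0 < (1 - r ^ 2)⁻¹ := inv_pos.2 (by linarith)
  rcases eq_or_lt_of_le (norm_nonneg (gv r h0 h1)) with h | h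
  · rw [← h] at h3; linarith
  · exact h

theorem norm_gv_sub {P : ℕ → (H →L[ℂ] H)} (hP : IsP P) (n : ℕ) :
    ‖gv r h0 h1 - P n (gv r h0 h1)‖ = r ^ (n + 1) * ‖gv r h0 h1‖ := by
  set v := gv r h0 h1 with hv
  have h2 : r ^ 2 < 1 := by nlinarith
  have e1 : inner ℂ (v - P n v) (v - P n v) = inner ℂ v v - inner ℂ (P n v) v := by
    have h3 : inner ℂ (P n v) (P n v) = inner ℂ (P n v) v := by
      rw [inner_P_comm hP n v (P n v), ← mul_apply_eq_comp, PP hP, inner_P_comm hP]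
    rw [inner_sub_left, inner_sub_right, inner_sub_right, h3, inner_P_comm hP n v v]
    ring
  have e2 : inner ℂ (P n v) v = ((∑ k ∈ Finset.range (n + 1), (r ^ 2) ^ k : ℝ) : ℂ) := by
    rw [inner_P hP]
    push_cast
    refine Finset.sum_congr rfl fun k _ => ?_
    rw [hv, gv_apply, map_pow, Complex.conj_ofReal]
    ring
  have e3 : ‖v - P n v‖ * ‖v - P n v‖ = (r ^ (n + 1)) ^ 2 * (1 - r ^ 2)⁻¹ := by
    rw [← norm_inner_self', e1, e2, hv, inner_gv, ← Complex.ofReal_sub, Complex.norm_real,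
      geom_sum_eq (by linarith)]
    have h3 : (1 - r ^ 2) ≠ 0 := by linarith
    have h4 : (r ^ 2 - 1) ≠ 0 := by linarith
    have e4 : (1 - r ^ 2)⁻¹ - ((r ^ 2) ^ (n + 1) - 1) / (r ^ 2 - 1) =
        (r ^ (n + 1)) ^ 2 * (1 - r ^ 2)⁻¹ := by
      rw [← pow_mul, ← pow_mul, mul_comm 2 (n + 1)]
      field_simp
      ring
    rw [e4, Real.norm_of_nonneg]
    exact mul_nonneg (sq_nonneg _) (inv_pos.2 (by linarith)).le
  have e5 := norm_gv h0 h1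
  rw [← hv] at e5
  have e6 : (r ^ (n + 1) * ‖v‖) * (r ^ (n + 1) * ‖v‖) = ‖v - P n v‖ * ‖v - P n v‖ := by
    rw [e3, ← e5]; ring
  exact (mul_self_inj_of_nonneg (norm_nonneg _) (by positivity)).1 e6.symm

theorem inner_W_gv {W : ℕ → (H →L[ℂ] H)} (hW : IsW W) (n : ℕ) :
    inner ℂ (W n (gv r h0 h1)) (gv r h0 h1) = (((n + 1 : ℕ) * r ^ n : ℝ) : ℂ) := by
  rw [inner_W hW]
  have : ∀ k ∈ Finset.range (n + 1), (starRingEnd ℂ) ((gv r h0 h1) k) * (gv r h0 h1) (n - k) =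
      (r : ℂ) ^ n := by
    intro k hk
    rw [Finset.mem_range] at hk
    rw [gv_apply, gv_apply, map_pow, Complex.conj_ofReal, ← pow_add]
    congr 1
    omega
  rw [Finset.sum_congr rfl this]
  simp

theorem ad_gv {c : ℤ → ℂ} {V : H →L[ℂ] H} (hV : IsIso c V) {t : ℂ}
    (ht : HasSum (fun m : ℕ => c m * (r : ℂ) ^ m) t) :
    ad V (gv r h0 h1) = t • gv r h0 h1 := by
  ext k
  rw [← inner_e_left, ContinuousLinearMap.adjoint_inner_right, lp.coeFn_smul, Pi.smul_apply,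
    gv_apply, smul_eq_mul]
  refine (lp.hasSum_inner (V (e k)) (gv r h0 h1)).unique ?_
  have e1 : (fun j : ℕ => inner ℂ ((V (e k)) j) ((gv r h0 h1) j)) =
      fun j : ℕ => c ((j : ℤ) - k) * (r : ℂ) ^ j := by
    funext j
    rw [gv_apply, hV.entry, RCLike.inner_apply, hV.real]
    ring
  rw [e1, ← hasSum_nat_add_iff' k]
  have e2 : ∑ i ∈ Finset.range k, c ((i : ℤ) - k) * (r : ℂ) ^ i = 0 := by
    refine Finset.sum_eq_zero fun i hi => ?_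
    rw [Finset.mem_range] at hi
    rw [hV.neg _ (by omega), zero_mul]
  rw [e2, sub_zero]
  have h3 := ht.mul_right ((r : ℂ) ^ k)
  have e3 : (fun n : ℕ => c (((n + k : ℕ) : ℤ) - k) * (r : ℂ) ^ (n + k)) =
      fun m : ℕ => c m * (r : ℂ) ^ m * (r : ℂ) ^ k := by
    funext m
    rw [show (((m + k : ℕ) : ℤ) - k) = m by push_cast; ring, pow_add]
    ring
  rw [e3]
  exact h3

variable {P W : ℕ → (H →L[ℂ] H)} (hP : IsP P) (hW : IsW W)
variable {c : ℤ → ℂ} {V : H →L[ℂ] H} (hV : IsIso c V)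

include hP hW hV in
theorem inner_A12 (n : ℕ) (v : H) :
    inner ℂ ((A1 P V n * A2 P V n) (W n v)) v =
      inner ℂ (W n (Q V (P n v))) (Q V (P n v)) := by
  have e1 : A1 P V n * A2 P V n * W n = P n * Q V * W n * Q V * P n := by
    rw [← W_A1_W hP hW hV]
    have h1 : A1 P V n * (W n * A1 P V n * W n) * W n = A1 P V n * W n * (A1 P V n * (W n * W n)) := by
      noncomm_ring
    rw [h1, WW hP hW, A1_eq hP hV]
    have h2 : P n * Q V * P n * W n * (P n * Q V * P n * P n) =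
        P n * Q V * (P n * W n * P n) * Q V * (P n * P n) := by noncomm_ring
    rw [h2, PW hP hW, WP hP hW, PP hP]
  have e2 : (A1 P V n * A2 P V n) (W n v) = (A1 P V n * A2 P V n * W n) v := rfl
  rw [e2, e1]
  simp only [mul_apply_eq_comp]
  rw [inner_P_comm hP, Q_comm]

theorem norm_inner_W_sub (hP : IsP P) (hW : IsW W) (n : ℕ) (u v : H) (h : ‖u‖ ≤ ‖v‖) :
    ‖inner ℂ (W n v) v‖ - 2 * ‖v‖ * ‖u - v‖ ≤ ‖inner ℂ (W n u) u‖ := by
  have e1 : inner ℂ (W n v) v = inner ℂ (W n u) u - inner ℂ (W n (u - v)) u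
      - inner ℂ (W n v) (u - v) := by
    rw [map_sub, inner_sub_left, inner_sub_right]
    ring
  have h1 : ‖inner ℂ (W n v) v‖ ≤ ‖inner ℂ (W n u) u‖ + ‖inner ℂ (W n (u - v)) u‖ +
      ‖inner ℂ (W n v) (u - v)‖ := by
    conv_lhs => rw [e1]
    refine (norm_sub_le _ _).trans ?_
    gcongr
    exact norm_sub_le _ _
  have h2 : ‖inner ℂ (W n (u - v)) u‖ ≤ ‖u - v‖ * ‖v‖ :=
    (norm_inner_le_norm _ _).trans (mul_le_mul (norm_W_le hP hW n _) h (norm_nonneg _)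
      (norm_nonneg _))
  have h3 : ‖inner ℂ (W n v) (u - v)‖ ≤ ‖v‖ * ‖u - v‖ :=
    (norm_inner_le_norm _ _).trans (mul_le_mul_of_nonneg_right (norm_W_le hP hW n _)
      (norm_nonneg _))
  linarith

include hP hW hV in
theorem lower (n : ℕ) {t : ℂ} (ht : HasSum (fun m : ℕ => c m * (r : ℂ) ^ m) t) :
    ((n : ℝ) + 1) * r ^ n * (1 - r ^ 2) - 2 * (‖t‖ + r ^ (n + 1)) ≤
      ‖inner ℂ ((A1 P V n * A2 P V n) (W n (((‖gv r h0 h1‖ : ℝ) : ℂ)⁻¹ • gv r h0 h1)))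
        (((‖gv r h0 h1‖ : ℝ) : ℂ)⁻¹ • gv r h0 h1)‖ := by
  set v := gv r h0 h1 with hv
  have hs : 0 < ‖v‖ := norm_gv_pos h0 h1
  have hss : ‖v‖ * ‖v‖ = (1 - r ^ 2)⁻¹ := norm_gv h0 h1
  have h2 : r ^ 2 < 1 := by nlinarith
  rw [inner_A12 hP hW hV]
  rw [map_smul, map_smul, map_smul, inner_smul_left, inner_smul_right, norm_mul, norm_mul]
  have e1 : ‖(starRingEnd ℂ) (((‖v‖ : ℝ) : ℂ)⁻¹)‖ = ‖v‖⁻¹ := by
    rw [RCLike.norm_conj, norm_inv, Complex.norm_real, norm_norm]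
  have e2 : ‖(((‖v‖ : ℝ) : ℂ)⁻¹)‖ = ‖v‖⁻¹ := by
    rw [norm_inv, Complex.norm_real, norm_norm]
  rw [e1, e2]
  set u := Q V (P n v) with hu
  have hul : ‖u‖ ≤ ‖v‖ := (norm_Q_le hV _).trans (norm_P_le hP n _)
  have h3 := norm_inner_W_sub hP hW n u v hul
  have h4 : ‖inner ℂ (W n v) v‖ = ((n : ℝ) + 1) * r ^ n := by
    rw [hv, inner_W_gv h0 h1 hW, Complex.norm_real, Real.norm_of_nonneg (by positivity)]
    push_cast
    ring
  have h5 : ‖u - v‖ ≤ (‖t‖ + r ^ (n + 1)) * ‖v‖ := by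
    have e3 : u - v = - (t • V v) - Q V (v - P n v) := by
      have e4 : Q V v = v - t • V v := by
        unfold Q
        rw [_root_.sub_apply, mul_apply_eq_comp, hv, ad_gv h0 h1 hV ht, map_smul]
        rfl
      rw [map_sub, ← hu, e4]
      abel
    rw [e3]
    calc ‖- (t • V v) - Q V (v - P n v)‖ ≤ ‖- (t • V v)‖ + ‖Q V (v - P n v)‖ := norm_sub_le _ _
      _ ≤ ‖t‖ * ‖v‖ + r ^ (n + 1) * ‖v‖ := by
          rw [norm_neg, norm_smul, norm_V hV]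
          gcongr
          refine (norm_Q_le hV _).trans_eq ?_
          exact norm_gv_sub h0 h1 hP n
      _ = _ := by ring
  rw [h4] at h3
  have h6 : ‖v‖⁻¹ * (‖v‖⁻¹ * ((((n : ℝ) + 1) * r ^ n) - 2 * ‖v‖ * ‖u - v‖)) ≤
      ‖v‖⁻¹ * (‖v‖⁻¹ * ‖inner ℂ (W n u) u‖) := by gcongr
  refine le_trans ?_ h6
  have h7 : 2 * ‖v‖ * ‖u - v‖ ≤ 2 * ‖v‖ * ((‖t‖ + r ^ (n + 1)) * ‖v‖) := by gcongr
  have h8 : ‖v‖⁻¹ * ‖v‖⁻¹ = 1 - r ^ 2 := by
    rw [← mul_inv, hss, inv_inv]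
  calc ((n : ℝ) + 1) * r ^ n * (1 - r ^ 2) - 2 * (‖t‖ + r ^ (n + 1))
      = ‖v‖⁻¹ * (‖v‖⁻¹ * ((((n : ℝ) + 1) * r ^ n) - 2 * ‖v‖ * ((‖t‖ + r ^ (n + 1)) * ‖v‖))) := by
        have e9 : ‖v‖⁻¹ * (‖v‖⁻¹ * ((((n : ℝ) + 1) * r ^ n) - 2 * ‖v‖ * ((‖t‖ + r ^ (n + 1)) * ‖v‖)))
          = (‖v‖⁻¹ * ‖v‖⁻¹) * (((n : ℝ) + 1) * r ^ n) - 2 * (‖v‖⁻¹ * ‖v‖) * (‖v‖⁻¹ * ‖v‖) *
            (‖t‖ + r ^ (n + 1)) := by ring
        rw [e9, h8, inv_mul_cancel₀ hs.ne']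
        ring
    _ ≤ _ := by gcongr

end

end Pool.Agent.X244.FinSec
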